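import Mathlib

/-!
# Pairs of integer points and products of linear forms: definitions
-/

set_option autoImplicit false

namespace Pool.Agent.T9h79.OP

variable {n : ℕ}

/-- the value of the form number `i` at an integer point -/
def form (L : Fin n → Fin n → ℝ) (i : Fin n) (p : Fin n → ℤ) : ℝ := ∑ j, L i j * (p j : ℝ)

/-- The integer points `p, q` are not proportional. -/
def NonProportional (p q : Fin n → ℤ) : Prop := ∃ a b : Fin n, p a * q b ≠ p b * q a

/-- The ratios `L i p / L i q` are pairwise different. -/
def Separated (L : Fin n → Fin n → ℝ) (p q : Fin n → ℤ) : Prop :=
  ∀ i j : Fin n, i ≠ j → form L i p * form L j q ≠ form L j p * form L i q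

open Classical in
/-- Some value of the ratio `L i p / L i q` is taken for less than `minFac n` of the `n` indices
(`minFac n` is the least prime factor of `n`). If `n` is prime this means that the ratios are not all
equal. -/
def Transverse (L : Fin n → Fin n → ℝ) (p q : Fin n → ℤ) : Prop :=
  ∃ i : Fin n, (Finset.univ.filter fun j : Fin n =>
    form L j p * form L i q = form L i p * form L j q).card < n.minFac

end Pool.Agent.T9h79.OP
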