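import Mathlib

/-!
# Products of linear forms: systems, limits, selections of integer points

Definitions for the files on MP_77d073_nt (Oppenheim's conjecture on products of linear forms).
-/

set_option autoImplicit false

open Filter Topology

namespace Pool.Agent.T9h79.OP

variable {n : ℕ}

/-- the product of the linear forms with the coefficients `L i`, at an integer point -/
noncomputable def F (L : Fin n → Fin n → ℝ) (p : Fin n → ℤ) : ℝ :=
  ∏ i : Fin n, ∑ j : Fin n, L i j * (p j : ℝ)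

/-- the product is bounded away from zero at the nonzero integer points -/
def BoundedAway (L : Fin n → Fin n → ℝ) : Prop :=
  ∃ ν : ℝ, 0 < ν ∧ ∀ p : Fin n → ℤ, p ≠ 0 → ν ≤ |F L p|

/-- Oppenheim's conclusion: there is an irreducible RS-matrix whose invariant planes are the
hyperplanes `L i = 0`. -/
def HasMatrix (L : Fin n → Fin n → ℝ) : Prop :=
  ∃ A : Matrix (Fin n) (Fin n) ℤ,
    A.det = 1 ∧
    Irreducible (A.charpoly.map (Int.castRingHom ℚ)) ∧
    (∀ z : ℂ, Polynomial.aeval z A.charpoly = 0 → z.im = 0) ∧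
    ∀ i : Fin n, ∀ x : Fin n → ℝ, ∑ j, L i j * x j = 0 →
      ∑ j, L i j * ((A.map (Int.cast : ℤ → ℝ)).mulVec x) j = 0

/-- Oppenheim's conjecture in dimension `n` -/
def Oppenheim (n : ℕ) : Prop :=
  ∀ L : Fin n → Fin n → ℝ, LinearIndependent ℝ L → BoundedAway L → HasMatrix L

/-- The limits of the systems `a i • (L i ∘ γ)`, `a` positive of product one, `γ` integral of
determinant `±1`. -/
def Limits (L : Fin n → Fin n → ℝ) : Set (Fin n → Fin n → ℝ) :=
  closure {L' | ∃ (a : Fin n → ℝ) (γ : Matrix (Fin n) (Fin n) ℤ), (∀ i, 0 < a i) ∧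
    ∏ i, a i = 1 ∧ |γ.det| = 1 ∧ ∀ i j, L' i j = a i * ∑ k, L i k * (γ k j : ℝ)}

/-- `L` is a limit of each of its limits. -/
def Recurrent (L : Fin n → Fin n → ℝ) : Prop := ∀ L' ∈ Limits L, L ∈ Limits L'

/-- the integer points of the orthant of the points at which `L i` has the sign `s i` -/
def Orthant (s : Fin n → ℤˣ) (L : Fin n → Fin n → ℝ) : Set (Fin n → ℤ) :=
  {p | ∀ i, 0 < ((s i : ℤ) : ℝ) * ∑ j, L i j * (p j : ℝ)}

/-- The vertices of the Klein polyhedron of the orthant: the points of `Orthant s L` at which some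
combination of the `|L i|` with positive coefficients has its unique minimum over `Orthant s L`. -/
def Vertices (s : Fin n → ℤˣ) (L : Fin n → Fin n → ℝ) : Set (Fin n → ℤ) :=
  {p | p ∈ Orthant s L ∧ ∃ c : Fin n → ℝ, (∀ i, 0 < c i) ∧ ∀ q ∈ Orthant s L, q ≠ p →
    ∑ i, c i * |∑ j, L i j * (p j : ℝ)| < ∑ i, c i * |∑ j, L i j * (q j : ℝ)|}

/-- The relative minima: the nonzero integer points `p` such that no nonzero integer point `q`
satisfies `|L i q| < |L i p|` for all `i`. -/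
def RelativeMinima (L : Fin n → Fin n → ℝ) : Set (Fin n → ℤ) :=
  {p | p ≠ 0 ∧ ∀ q : Fin n → ℤ, q ≠ 0 →
    ∃ i, |∑ j, L i j * (p j : ℝ)| ≤ |∑ j, L i j * (q j : ℝ)|}

/-- the absolute values of the product at the points of `S L` -/
def valuesOn (S : (Fin n → Fin n → ℝ) → Set (Fin n → ℤ)) (L : Fin n → Fin n → ℝ) : Set ℝ :=
  {t | ∃ p ∈ S L, |F L p| = t}

/-- The infimum of the absolute value of the product over `S L` is attained. -/
def Attained (S : (Fin n → Fin n → ℝ) → Set (Fin n → ℤ)) (L : Fin n → Fin n → ℝ) : Prop :=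
  ∃ p ∈ S L, ∀ q ∈ S L, |F L p| ≤ |F L q|

/-- The set of the values on `S L` has an isolated point. -/
def HasIsolatedValue (S : (Fin n → Fin n → ℝ) → Set (Fin n → ℤ)) (L : Fin n → Fin n → ℝ) : Prop :=
  ∃ t ∈ valuesOn S L, ∃ ε : ℝ, 0 < ε ∧ ∀ u ∈ valuesOn S L, |u - t| < ε → u = t

/-- The limits of the absolute values of the product at the points `p` of `S L` for which the vector
of the `log |L k p|` is at distance at most `δ u` from `u θ`, with `u → ∞`. -/
def LimitAlong (S : (Fin n → Fin n → ℝ) → Set (Fin n → ℤ)) (θ : Fin n → ℝ) (δ : ℝ)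
    (L : Fin n → Fin n → ℝ) : Set ℝ :=
  {t | ∀ (ε : ℝ) (N : ℕ), 0 < ε → ∃ p ∈ S L, ∃ u : ℝ, (N : ℝ) ≤ u ∧
    (∀ k, |Real.log |∑ j, L k j * (p j : ℝ)| - θ k * u| ≤ δ * u) ∧ |(|F L p| - t)| < ε}

/-- an equivariant and open choice of nonzero integer points -/
structure Selection (S : (Fin n → Fin n → ℝ) → Set (Fin n → ℤ)) : Prop where
  nonzero : ∀ L : Fin n → Fin n → ℝ, LinearIndependent ℝ L → BoundedAway L → ∀ p ∈ S L, p ≠ 0
  equivariant : ∀ (L L' : Fin n → Fin n → ℝ) (a : Fin n → ℝ) (γ : Matrix (Fin n) (Fin n) ℤ),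
    LinearIndependent ℝ L → BoundedAway L → (∀ i, 0 < a i) → ∏ i, a i = 1 → |γ.det| = 1 →
    (∀ i j, L' i j = a i * ∑ k, L i k * (γ k j : ℝ)) → ∀ p ∈ S L', γ.mulVec p ∈ S L
  isOpen : ∀ L : Fin n → Fin n → ℝ, LinearIndependent ℝ L → BoundedAway L → ∀ p ∈ S L,
    ∀ᶠ M in 𝓝 L, p ∈ S M

/-- `S L` is not empty for all systems with product bounded away from zero. -/
def Total (S : (Fin n → Fin n → ℝ) → Set (Fin n → ℤ)) : Prop :=
  ∀ L : Fin n → Fin n → ℝ, LinearIndependent ℝ L → BoundedAway L → (S L).Nonempty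

end Pool.Agent.T9h79.OP
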