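import Mathlib
import Pool.Agent.T9h79.OP.Defs
import Pool.Agent.Results.MP_77d073_nt.IndependentCoefficients
import Pool.Agent.R503.CSD.Val
import Pool.Agent.R750.CV.Dir

/-!
# Oppenheim's conclusion and selections of integer points: the proofs

The lemmas up to the criterion are those of `AttainedInfimum` (helper56) with the points of a
selection in the place of all nonzero integer points.
-/

set_option autoImplicit false

open Filter Topology
open Pool.Agent
open Pool.Agent.Results.MP_77d073_nt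

namespace Pool.Agent.T9h79.OP

variable {n : ℕ}

/-! ### The lemmas of `IndependentCoefficients` -/

lemma limit_props (hn : 3 ≤ n) {L : Fin n → Fin n → ℝ} (hL : LinearIndependent ℝ L)
    (hb : BoundedAway L) {L' : Fin n → Fin n → ℝ} (hL' : L' ∈ Limits L) :
    LinearIndependent ℝ L' ∧ BoundedAway L' ∧ (HasMatrix L ↔ HasMatrix L') :=
  IndependentCoefficients.limit_props hn hL hb hL'

lemma exists_recurrent (hn : 3 ≤ n) {L : Fin n → Fin n → ℝ} (hL : LinearIndependent ℝ L)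
    (hb : BoundedAway L) : ∃ L' ∈ Limits L, Recurrent L' :=
  IndependentCoefficients.exists_recurrent hn hL hb

lemma limits_trans {L L' : Fin n → Fin n → ℝ} (hL' : L' ∈ Limits L) : Limits L' ⊆ Limits L :=
  IndependentCoefficients.limits_trans hL'

lemma self_mem (L : Fin n → Fin n → ℝ) : L ∈ Limits L := IndependentCoefficients.self_mem L

lemma continuous_F (p : Fin n → ℤ) : Continuous (fun L : Fin n → Fin n → ℝ => F L p) := by
  unfold F
  fun_prop

/-- the forms of the system `a i • (L i ∘ γ)` -/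
lemma lf_orbit {L L' : Fin n → Fin n → ℝ} {a : Fin n → ℝ} {γ : Matrix (Fin n) (Fin n) ℤ}
    (h : ∀ i j, L' i j = a i * ∑ k, L i k * (γ k j : ℝ)) (p : Fin n → ℤ) (i : Fin n) :
    ∑ j, L' i j * (p j : ℝ) = a i * ∑ k, L i k * ((γ.mulVec p) k : ℝ) := by
  have h2 : ∀ k, ((γ.mulVec p) k : ℝ) = ∑ j, (γ k j : ℝ) * (p j : ℝ) := by
    intro k
    rw [Matrix.mulVec, dotProduct]
    push_cast
    rfl
  simp_rw [h, h2, Finset.mul_sum, Finset.sum_mul]
  rw [Finset.sum_comm]
  refine Finset.sum_congr rfl fun k _ => Finset.sum_congr rfl fun j _ => ?_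
  ring

/-- a value of the form `a i • (L i ∘ γ)` is a value of `L` -/
lemma F_orbit {L L' : Fin n → Fin n → ℝ} {a : Fin n → ℝ} {γ : Matrix (Fin n) (Fin n) ℤ}
    (ha : ∏ i, a i = 1) (h : ∀ i j, L' i j = a i * ∑ k, L i k * (γ k j : ℝ)) (p : Fin n → ℤ) :
    F L' p = F L (γ.mulVec p) := by
  unfold F
  simp_rw [lf_orbit h p]
  rw [Finset.prod_mul_distrib, ha, one_mul]

lemma mulVec_ne_zero {γ : Matrix (Fin n) (Fin n) ℤ} (hγ : |γ.det| = 1) {p : Fin n → ℤ}
    (hp : p ≠ 0) : γ.mulVec p ≠ 0 := by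
  intro h0
  have hdet : γ.det ≠ 0 := by
    intro h1
    rw [h1] at hγ
    simp at hγ
  exact hp (Matrix.eq_zero_of_mulVec_eq_zero hdet h0)

lemma mulVec_surj {γ : Matrix (Fin n) (Fin n) ℤ} (hγ : |γ.det| = 1) (q : Fin n → ℤ) :
    ∃ p, γ.mulVec p = q := by
  refine ⟨(γ⁻¹).mulVec q, ?_⟩
  rw [Matrix.mulVec_mulVec, Matrix.mul_nonsing_inv _ (Int.isUnit_iff_abs_eq.2 hγ),
    Matrix.one_mulVec]

/-- the values of a limit are limits of values -/
lemma values_limit (hn : 3 ≤ n) {S : (Fin n → Fin n → ℝ) → Set (Fin n → ℤ)} (hS : Selection S)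
    {L M : Fin n → Fin n → ℝ} (hL : LinearIndependent ℝ L) (hb : BoundedAway L)
    (hM : M ∈ Limits L) {p : Fin n → ℤ} (hp : p ∈ S M) :
    |F M p| ∈ closure (valuesOn S L) := by
  obtain ⟨h1, h2, -⟩ := limit_props hn hL hb hM
  have hcont : Continuous (fun L : Fin n → Fin n → ℝ => |F L p|) := (continuous_F p).abs
  refine mem_closure_iff.2 fun U hU hMU => ?_
  have h3 : ∀ᶠ N in 𝓝 M, p ∈ S N ∧ |F N p| ∈ U :=
    (hS.isOpen M h1 h2 p hp).and (hcont.continuousAt.eventually (hU.mem_nhds hMU))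
  obtain ⟨V, hV, hVo, hMV⟩ := eventually_nhds_iff.1 h3
  obtain ⟨N, hNV, a, γ, ha0, ha1, hγ, h⟩ := mem_closure_iff.1 hM V hVo hMV
  obtain ⟨h4, h5⟩ := hV N hNV
  refine ⟨|F N p|, h5, γ.mulVec p, hS.equivariant L N a γ hL hb ha0 ha1 hγ h p h4, ?_⟩
  rw [← F_orbit ha1 h]

/-- limits of limits of a recurrent system -/
lemma recurrent_limit {L M : Fin n → Fin n → ℝ} (hL : Recurrent L) (hM : M ∈ Limits L) :
    Recurrent M := fun M' hM' => limits_trans (hL M' (limits_trans hM hM')) hM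

/-- the limits of a recurrent system have selected points -/
lemma recurrent_nonempty (hn : 3 ≤ n) {S : (Fin n → Fin n → ℝ) → Set (Fin n → ℤ)}
    (hS : Selection S) {L : Fin n → Fin n → ℝ} (hL : LinearIndependent ℝ L) (hb : BoundedAway L)
    (hrec : Recurrent L) (hne : (S L).Nonempty) : ∀ M ∈ Limits L, (S M).Nonempty := by
  intro M hM
  obtain ⟨p, hp⟩ := hne
  obtain ⟨h1, h2, -⟩ := limit_props hn hL hb hM
  obtain ⟨V, hV, hVo, hLV⟩ := eventually_nhds_iff.1 (hS.isOpen L hL hb p hp)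
  obtain ⟨N, hNV, a, γ, ha0, ha1, hγ, h⟩ := mem_closure_iff.1 (hrec M hM) V hVo hLV
  exact ⟨γ.mulVec p, hS.equivariant M N a γ h1 h2 ha0 ha1 hγ h p (hV N hNV)⟩

/-! ### Avoiding countably many values -/

/-- the limits without values in a countable set are dense -/
theorem dense_avoid (hn : 3 ≤ n) {L : Fin n → Fin n → ℝ} (hL : LinearIndependent ℝ L)
    (hb : BoundedAway L) (hA : ¬ HasMatrix L) (hrec : Recurrent L) {C : Set ℝ}
    (hC : C.Countable) :
    Limits L ⊆ closure {M | M ∈ Limits L ∧ ∀ p : Fin n → ℤ, p ≠ 0 → |F M p| ∉ C} := by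
  classical
  -- the relations
  set T : Set ((Fin n → ℤ) × ℝ) := {q | q.1 ≠ 0 ∧ (q.2 ∈ C ∨ -q.2 ∈ C)} with hT
  have hTc : T.Countable := by
    have h1 : T ⊆ Set.univ ×ˢ (C ∪ Neg.neg ⁻¹' C) := by
      rintro ⟨p, c⟩ ⟨-, h⟩
      exact ⟨Set.mem_univ _, h⟩
    refine (Set.Countable.prod (Set.countable_univ) (hC.union ?_)).mono h1
    exact hC.preimage neg_injective
  rcases T.eq_empty_or_nonempty with hTe | hTne
  · have hCe : C = ∅ := by
      by_contra hne
      obtain ⟨c, hc⟩ := Set.nonempty_iff_ne_empty.2 hne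
      have hmem : ((fun _ => 1 : Fin n → ℤ), c) ∈ T := by
        refine ⟨fun h0 => ?_, Or.inl hc⟩
        have := congrFun h0 ⟨0, by omega⟩
        simp at this
      rw [hTe] at hmem
      exact hmem
    intro M hM
    refine subset_closure ⟨hM, fun p _ => ?_⟩
    rw [hCe]
    exact Set.notMem_empty _
  obtain ⟨u, hu⟩ := hTc.exists_eq_range hTne
  have hu1 : ∀ k, (u k).1 ≠ 0 := fun k => (hu ▸ Set.mem_range_self k : u k ∈ T).1
  have h1 := (IndependentCoefficients.result n hn).1 L hL hb hA hrec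
  set lf : Fin n → (Fin n → ℤ) → (Fin n → Fin n → ℝ) → ℝ := fun i p M => ∑ j, M i j * (p j : ℝ)
    with hlf
  have hlfc : ∀ i p, Continuous (lf i p) := fun i p => by
    rw [hlf]
    fun_prop
  set W : ℕ → Set (Fin n → Fin n → ℝ) := fun k => {M | ∀ i, lf i (u k).1 M ≠ 0} with hW
  set f : ℕ → (Fin n → Fin n → ℝ) → ℝ := fun k M => F M (u k).1 - (u k).2 with hf
  set i₀ : Fin n := ⟨0, by omega⟩ with hi₀
  set X : ℕ → Fin 1 → Fin n → ℤ := fun k _ => (u k).1 with hX
  have hfX : ∀ k, f k = fun M => R503.CSD.FV (X k) M 0 - (u k).2 := fun k => rfl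
  have han : ∀ k M, HasStrictFDerivAt (f k) (fderiv ℝ (f k) M) M := by
    intro k M
    have h2 : AnalyticAt ℝ (f k) M := by
      rw [hfX]
      exact (R503.CSD.an_FVk (X k) 0 M).sub analyticAt_const
    exact h2.hasStrictFDerivAt
  have hWo : ∀ k, IsOpen (W k) := by
    intro k
    have h2 : W k = ⋂ i, {M | lf i (u k).1 M ≠ 0} := by
      ext M
      simp [hW]
    rw [h2]
    exact isOpen_iInter_of_finite fun i => isOpen_ne_fun (hlfc i _) continuous_const
  have hder : ∀ k, ∀ M ∈ W k, ∀ j,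
      fderiv ℝ (f k) M (IndependentCoefficients.place i₀ j M) ≠ 0 := by
    intro k M hM j
    have hl : ∀ q : Fin 1, R503.CSD.lf i₀ (X k q) M ≠ 0 := fun q => hM i₀
    have h2 := R503.CSD.fv_dir (X k) (i := i₀) (j := j) M hl
    have h3 : fderiv ℝ (f k) M = (ContinuousLinearMap.proj (R := ℝ)
        (φ := fun _ : Fin 1 => ℝ) 0).comp (fderiv ℝ (R503.CSD.FV (X k)) M) := by
      have h4 : f k = fun M => (ContinuousLinearMap.proj (R := ℝ)
        (φ := fun _ : Fin 1 => ℝ) 0) (R503.CSD.FV (X k) M) - (u k).2 := rfl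
      rw [h4]
      have h5 := (((ContinuousLinearMap.proj (R := ℝ) (φ := fun _ : Fin 1 => ℝ)
        0).hasFDerivAt.comp M (R503.CSD.an_FV (X k) M).differentiableAt.hasFDerivAt).sub_const
          (u k).2)
      exact h5.fderiv
    rw [h3, ContinuousLinearMap.comp_apply, IndependentCoefficients.place_eq, h2]
    show R503.CSD.FV (X k) M 0 * (R503.CSD.lf j (X k 0) M / R503.CSD.lf i₀ (X k 0) M) ≠ 0
    refine mul_ne_zero ?_ (div_ne_zero (hM j) (hM i₀))
    rw [R503.CSD.FV_eq]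
    exact Finset.prod_ne_zero_iff.2 fun i _ => hM i
  have h6 := h1 W f (fun k M => fderiv ℝ (f k) M) (fun _ => i₀) (fun _ => Finset.univ.erase i₀)
    hWo (fun _ => Finset.notMem_erase _ _) (fun _ => by
      rw [Finset.card_erase_of_mem (Finset.mem_univ _), Finset.card_univ, Fintype.card_fin]
      have := (Nat.minFac_prime (by omega : n ≠ 1)).two_le
      omega) (fun k M _ => han k M) (fun k M hM _ j _ => hder k M hM j)
  intro M₀ hM₀
  refine closure_mono ?_ (h6 hM₀)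
  rintro M ⟨hM, hM2⟩
  refine ⟨hM, fun p hp hpC => ?_⟩
  obtain ⟨-, ⟨ν, hν, hbM⟩, -⟩ := limit_props hn hL hb hM
  have hmem : (p, F M p) ∈ T := by
    refine ⟨hp, ?_⟩
    rcases abs_choice (F M p) with h | h
    · left
      rwa [h] at hpC
    · right
      rwa [h] at hpC
  rw [hu] at hmem
  obtain ⟨k, hk⟩ := hmem
  have hk1 : (u k).1 = p := by rw [hk]
  have hk2 : (u k).2 = F M p := by rw [hk]
  refine hM2 k (fun i hi => ?_) ?_
  · have h7 := hbM p hp
    have h8 : F M p = 0 := Finset.prod_eq_zero (Finset.mem_univ i) (by rw [← hk1]; exact hi)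
    rw [h8, abs_zero] at h7
    exact absurd h7 (not_le.2 hν)
  · show F M (u k).1 - (u k).2 = 0
    rw [hk1, hk2, sub_self]

/-! ### Forms with Oppenheim's conclusion -/

/-- the values of a form with Oppenheim's conclusion -/
lemma values_sub (hn : 3 ≤ n) {L : Fin n → Fin n → ℝ} (hL : LinearIndependent ℝ L)
    (hb : BoundedAway L) (hA : HasMatrix L) :
    ∃ c : ℝ, 0 < c ∧ ∀ p : Fin n → ℤ, ∃ z : ℕ, |F L p| = c * z := by
  obtain ⟨c, hc, h⟩ := H715R2.values_of_propInt (IndependentCoefficients.propInt hn hL hb hA)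
  refine ⟨|c|, abs_pos.2 hc, fun p => ?_⟩
  obtain ⟨z, hz⟩ := h p
  refine ⟨z.natAbs, ?_⟩
  have h1 : F L p = c * z := hz
  rw [h1, abs_mul, Nat.cast_natAbs, Int.cast_abs]

section
variable {S : (Fin n → Fin n → ℝ) → Set (Fin n → ℤ)}

lemma values_form {L : Fin n → Fin n → ℝ} {c : ℝ} (h : ∀ p : Fin n → ℤ, ∃ z : ℕ, |F L p| = c * z) :
    valuesOn S L = (fun t : ℝ => c * t) '' ((Nat.cast : ℕ → ℝ) ''
      {m : ℕ | c * m ∈ valuesOn S L}) := by
  ext t
  constructor
  · rintro ⟨p, hp, rfl⟩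
    obtain ⟨z, hz⟩ := h p
    exact ⟨z, ⟨z, ⟨p, hp, hz⟩, rfl⟩, hz.symm⟩
  · rintro ⟨_, ⟨m, hm, rfl⟩, rfl⟩
    exact hm

lemma attained_of (hn : 3 ≤ n) {L : Fin n → Fin n → ℝ}
    (hL : LinearIndependent ℝ L) (hb : BoundedAway L) (hA : HasMatrix L)
    (hne : (S L).Nonempty) : Attained S L := by
  classical
  obtain ⟨c, hc, h⟩ := values_sub hn hL hb hA
  choose z hz using h
  have hne : ∃ m, ∃ p ∈ S L, z p = m := by
    obtain ⟨p, hp⟩ := hne
    exact ⟨_, p, hp, rfl⟩
  obtain ⟨p, hp, hzp⟩ := Nat.find_spec hne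
  refine ⟨p, hp, fun q hq => ?_⟩
  rw [hz, hz]
  refine mul_le_mul_of_nonneg_left ?_ hc.le
  have h1 := Nat.find_min' hne ⟨q, hq, rfl⟩
  rw [← hzp] at h1
  exact_mod_cast h1

lemma closed_of (hn : 3 ≤ n) {L : Fin n → Fin n → ℝ} (hL : LinearIndependent ℝ L)
    (hb : BoundedAway L) (hA : HasMatrix L) : IsClosed (valuesOn S L) := by
  obtain ⟨c, hc, h⟩ := values_sub hn hL hb hA
  rw [values_form h]
  exact (Homeomorph.mulLeft₀ c hc.ne').isClosedMap _
    (Nat.isClosedEmbedding_coe_real.isClosedMap _ (isClosed_discrete _))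

lemma isolated_of (hn : 3 ≤ n) {L : Fin n → Fin n → ℝ}
    (hL : LinearIndependent ℝ L) (hb : BoundedAway L) (hA : HasMatrix L)
    (hne : (S L).Nonempty) : HasIsolatedValue S L := by
  obtain ⟨c, hc, h⟩ := values_sub hn hL hb hA
  obtain ⟨p₀, hp₀⟩ := hne
  refine ⟨|F L p₀|, ⟨_, hp₀, rfl⟩, c, hc, ?_⟩
  rintro u ⟨p, hp, rfl⟩ hu
  obtain ⟨z, hz⟩ := h p
  obtain ⟨w, hw⟩ := h p₀
  rw [hz, hw] at hu ⊢
  rw [← mul_sub, abs_mul, abs_of_pos hc] at hu
  have h1 : |((z : ℝ) - w)| < 1 := by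
    by_contra hcon
    exact absurd hu (not_lt.2 (le_mul_of_one_le_right hc.le (not_lt.1 hcon)))
  have h2 : |((z : ℤ) - (w : ℤ))| < 1 := by exact_mod_cast h1
  have h3 : (z : ℤ) = w := by
    have := Int.abs_lt_one_iff.1 h2
    omega
  have h4 : z = w := by exact_mod_cast h3
  rw [h4]

lemma values_countable (L : Fin n → Fin n → ℝ) : (valuesOn S L).Countable := by
  have h1 : valuesOn S L ⊆ Set.range (fun p : Fin n → ℤ => |F L p|) := by
    rintro t ⟨p, -, rfl⟩
    exact ⟨p, rfl⟩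
  exact (Set.countable_range _).mono h1

lemma countable_closure_of (hn : 3 ≤ n) {L : Fin n → Fin n → ℝ} (hL : LinearIndependent ℝ L)
    (hb : BoundedAway L) (hA : HasMatrix L) : (closure (valuesOn S L)).Countable := by
  rw [(closed_of hn hL hb hA).closure_eq]
  exact values_countable L

lemma finite_of_bounded (hn : 3 ≤ n) {L : Fin n → Fin n → ℝ} (hL : LinearIndependent ℝ L)
    (hb : BoundedAway L) (hA : HasMatrix L) (B : ℝ) (hB : ∀ p ∈ S L, |F L p| ≤ B) :
    (valuesOn S L).Finite := by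
  obtain ⟨c, hc, h⟩ := values_sub hn hL hb hA
  rw [values_form h]
  refine ((Set.finite_Iic ⌊B / c⌋₊).subset ?_ |>.image _).image _
  rintro m ⟨p, hp, hpm⟩
  have h1 := hB p hp
  rw [hpm] at h1
  refine Nat.le_floor ?_
  rw [le_div_iff₀ hc, mul_comm]
  exact h1

/-! ### Recurrent counterexamples -/

/-- A product whose values on `S L` have countable closure satisfies Oppenheim's conclusion. -/
lemma of_countable (hn : 3 ≤ n) (hS : Selection S) {L : Fin n → Fin n → ℝ}
    (hL : LinearIndependent ℝ L) (hb : BoundedAway L) (hne : ∀ M ∈ Limits L, (S M).Nonempty)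
    (hC : (closure (valuesOn S L)).Countable) : HasMatrix L := by
  by_contra hA
  obtain ⟨L', hL', hrec⟩ := exists_recurrent hn hL hb
  obtain ⟨a, b, c⟩ := limit_props hn hL hb hL'
  obtain ⟨M, -, hM, hM2⟩ := mem_closure_iff.1
    (dense_avoid hn a b (fun h => hA (c.2 h)) hrec hC (self_mem L')) _ isOpen_univ
    (Set.mem_univ L')
  have hML := limits_trans hL' hM
  obtain ⟨a', b', -⟩ := limit_props hn hL hb hML
  obtain ⟨p, hp⟩ := hne M hML
  exact hM2 p (hS.nonzero M a' b' p hp) (values_limit hn hS hL hb hML hp)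

/-- A product whose values on `S L` form a closed set satisfies Oppenheim's conclusion. -/
lemma of_closed (hn : 3 ≤ n) (hS : Selection S) {L : Fin n → Fin n → ℝ}
    (hL : LinearIndependent ℝ L) (hb : BoundedAway L) (hne : ∀ M ∈ Limits L, (S M).Nonempty)
    (hcl : IsClosed (valuesOn S L)) : HasMatrix L := by
  refine of_countable hn hS hL hb hne ?_
  rw [hcl.closure_eq]
  exact values_countable L

/-- the limit values near a value of a recurrent counterexample are uncountable -/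
lemma uncountable_near (hn : 3 ≤ n) (hS : Selection S) {L : Fin n → Fin n → ℝ}
    (hL : LinearIndependent ℝ L) (hb : BoundedAway L) (hA : ¬ HasMatrix L) (hrec : Recurrent L)
    {U : Set ℝ} (hU : IsOpen U) (hUv : (U ∩ valuesOn S L).Nonempty) :
    ¬ (U ∩ closure (valuesOn S L)).Countable := by
  intro hC
  obtain ⟨t, htU, p, hp, rfl⟩ := hUv
  have h1 := dense_avoid hn hL hb hA hrec hC (self_mem L)
  have hcont : Continuous (fun L : Fin n → Fin n → ℝ => |F L p|) := (continuous_F p).abs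
  have h3 : ∀ᶠ N in 𝓝 L, p ∈ S N ∧ |F N p| ∈ U :=
    (hS.isOpen L hL hb p hp).and (hcont.continuousAt.eventually (hU.mem_nhds htU))
  obtain ⟨V, hV, hVo, hLV⟩ := eventually_nhds_iff.1 h3
  obtain ⟨M, hMV, hM, hM2⟩ := mem_closure_iff.1 h1 V hVo hLV
  obtain ⟨h4, h5⟩ := hV M hMV
  exact hM2 p (hS.nonzero L hL hb p hp) ⟨h5, values_limit hn hS hL hb hM h4⟩

/-- a recurrent counterexample has no isolated value -/
lemma not_isolated (hn : 3 ≤ n) (hS : Selection S) {L : Fin n → Fin n → ℝ}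
    (hL : LinearIndependent ℝ L) (hb : BoundedAway L) (hA : ¬ HasMatrix L) (hrec : Recurrent L) :
    ¬ HasIsolatedValue S L := by
  rintro ⟨t, ht, ε, hε, h⟩
  refine uncountable_near hn hS hL hb hA hrec (Metric.isOpen_ball (x := t) (ε := ε))
    ⟨t, Metric.mem_ball_self hε, ht⟩ ((Set.countable_singleton t).mono ?_)
  rintro u ⟨hu, hu2⟩
  have h1 : u ∈ closure (Metric.ball t ε ∩ valuesOn S L) :=
    Metric.isOpen_ball.inter_closure ⟨hu, hu2⟩
  refine closure_minimal ?_ (isClosed_singleton (x := t)) h1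
  rintro v ⟨hv, hv2⟩
  exact h v hv2 (by rwa [Metric.mem_ball, Real.dist_eq] at hv)

/-- a recurrent counterexample has limits which do not attain their infimum -/
lemma exists_not_attained (hn : 3 ≤ n) (hS : Selection S) {L : Fin n → Fin n → ℝ}
    (hL : LinearIndependent ℝ L) (hb : BoundedAway L) (hA : ¬ HasMatrix L) (hrec : Recurrent L)
    (hne : (S L).Nonempty) : ∃ M ∈ Limits L, ¬ Attained S M := by
  have h1 := dense_avoid hn hL hb hA hrec (Set.countable_singleton (sInf (valuesOn S L)))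
    (self_mem L)
  obtain ⟨M, -, hM, hM2⟩ := mem_closure_iff.1 h1 _ isOpen_univ (Set.mem_univ L)
  obtain ⟨aM, bM, -⟩ := limit_props hn hL hb hM
  refine ⟨M, hM, ?_⟩
  rintro ⟨p, hp, hmin⟩
  refine hM2 p (hS.nonzero M aM bM p hp) ?_
  rw [Set.mem_singleton_iff]
  have hbdd : ∀ M : Fin n → Fin n → ℝ, BddBelow (valuesOn S M) := fun M => ⟨0, by
    rintro t ⟨q, -, rfl⟩
    exact abs_nonneg _⟩
  have hinf : ∀ M : Fin n → Fin n → ℝ, ∀ t ∈ closure (valuesOn S M),
      sInf (valuesOn S M) ≤ t := by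
    intro M t ht
    refine closure_minimal ?_ isClosed_Ici ht
    intro u hu
    exact csInf_le (hbdd M) hu
  refine le_antisymm ?_ (hinf L _ (values_limit hn hS hL hb hM hp))
  have hne' : (valuesOn S L).Nonempty := by
    obtain ⟨q, hq⟩ := hne
    exact ⟨_, q, hq, rfl⟩
  refine le_csInf hne' ?_
  rintro t ⟨q, hq, rfl⟩
  have h2 : |F L q| ∈ closure (valuesOn S M) := values_limit hn hS aM bM (hrec M hM) hq
  refine closure_minimal ?_ isClosed_Ici h2
  rintro u ⟨r, hr, rfl⟩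
  exact hmin r hr

end

/-- the criterion behind the equivalences -/
lemma criterion (hn : 3 ≤ n) {P : (Fin n → Fin n → ℝ) → Prop} {L : Fin n → Fin n → ℝ}
    (hL : LinearIndependent ℝ L) (hb : BoundedAway L)
    (h1 : ∀ M ∈ Limits L, LinearIndependent ℝ M → BoundedAway M → HasMatrix M → P M)
    (h2 : ∀ M ∈ Limits L, LinearIndependent ℝ M → BoundedAway M → ¬ HasMatrix M →
      Recurrent M → ∃ M' ∈ Limits M, ¬ P M') :
    HasMatrix L ↔ ∀ M ∈ Limits L, P M := by
  constructor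
  · intro hA M hM
    obtain ⟨a, b, c⟩ := limit_props hn hL hb hM
    exact h1 M hM a b (c.1 hA)
  · intro hP
    by_contra hA
    obtain ⟨L', hL', hrec⟩ := exists_recurrent hn hL hb
    obtain ⟨a, b, c⟩ := limit_props hn hL hb hL'
    obtain ⟨M, hM, hPM⟩ := h2 L' hL' a b (fun h => hA (c.2 h)) hrec
    exact hPM (hP M (limits_trans hL' hM))

/-- the conjecture in dimension `n` -/
lemma conjecture_iff (hn : 3 ≤ n) {P : (Fin n → Fin n → ℝ) → Prop}
    (h : ∀ L : Fin n → Fin n → ℝ, LinearIndependent ℝ L → BoundedAway L →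
      (HasMatrix L → P L) ∧ ((∀ M ∈ Limits L, P M) → HasMatrix L)) :
    Oppenheim n ↔ ∀ L : Fin n → Fin n → ℝ, LinearIndependent ℝ L → BoundedAway L → P L := by
  refine ⟨fun hO L hL hb => (h L hL hb).1 (hO L hL hb), fun hP L hL hb => ?_⟩
  refine (h L hL hb).2 fun M hM => ?_
  obtain ⟨a, b, -⟩ := limit_props hn hL hb hM
  exact hP M a b

/-! ### The three selections -/

lemma lf_ne {L : Fin n → Fin n → ℝ} (hb : BoundedAway L) {q : Fin n → ℤ} (hq : q ≠ 0)
    (i : Fin n) : ∑ j, L i j * (q j : ℝ) ≠ 0 := by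
  obtain ⟨ν, hν, h⟩ := hb
  intro h0
  have h1 := h q hq
  rw [show F L q = 0 from Finset.prod_eq_zero (Finset.mem_univ i) h0, abs_zero] at h1
  exact absurd h1 (not_le.2 hν)

lemma cont_lf (i : Fin n) (q : Fin n → ℤ) :
    Continuous (fun M : Fin n → Fin n → ℝ => ∑ j, M i j * (q j : ℝ)) := by
  fun_prop

/-- finitely many integer points have bounded forms, uniformly near `L` -/
lemma finite_near {L : Fin n → Fin n → ℝ} (hL : LinearIndependent ℝ L) (R : ℝ) :
    ∃ Q : Set (Fin n → ℤ), Q.Finite ∧ ∀ᶠ M in 𝓝 L, ∀ q : Fin n → ℤ,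
      (∀ i, |∑ j, M i j * (q j : ℝ)| ≤ R) → q ∈ Q := by
  classical
  have hdet : (Matrix.of L).det ≠ 0 := Pool.Agent.H905R2.Opp.det_ne hL
  set g : (Fin n → Fin n → ℝ) → Fin n → ℝ := fun M j =>
    |(Matrix.of M).det|⁻¹ * ∑ k, |(Matrix.of M).adjugate j k| * R with hg
  have hdc : Continuous (fun M : Fin n → Fin n → ℝ => (Matrix.of M).det) := by
    have h1 : Continuous (fun h : Matrix (Fin n) (Fin n) ℝ => h.det) := continuous_id.matrix_det
    exact h1
  have hc : ∀ j, ContinuousAt (fun M => g M j) L := by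
    intro j
    have hac : Continuous (fun M : Fin n → Fin n → ℝ =>
        ∑ k, |(Matrix.of M).adjugate j k| * R) := by
      refine continuous_finsetSum _ fun k _ => ?_
      have h2 : Continuous (fun h : Matrix (Fin n) (Fin n) ℝ => h.adjugate j k) :=
        (continuous_id.matrix_adjugate).matrix_elem j k
      have h3 : Continuous (fun h : Matrix (Fin n) (Fin n) ℝ => |h.adjugate j k| * R) :=
        h2.abs.mul continuous_const
      exact h3
    exact ((hdc.abs.continuousAt).inv₀ (abs_ne_zero.2 hdet)).mul hac.continuousAt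
  set B : ℤ := ⌈∑ j, (|g L j| + 1)⌉ with hB
  refine ⟨Set.Icc (fun _ => -B) (fun _ => B), Set.finite_Icc _ _, ?_⟩
  have h1 : ∀ᶠ M in 𝓝 L, ∀ j, g M j < g L j + 1 :=
    Filter.eventually_all.2 fun j => (hc j).eventually (gt_mem_nhds (by linarith))
  have h2 : ∀ᶠ M in 𝓝 L, (Matrix.of M).det ≠ 0 := hdc.continuousAt.eventually_ne hdet
  filter_upwards [h1, h2] with M hM hMd q hq
  have h3 : ∀ j, |(q j : ℝ)| ≤ g M j := by
    intro j
    have h4 : (Matrix.of M).det * (q j : ℝ) =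
        ∑ k, (Matrix.of M).adjugate j k * ∑ l, M k l * (q l : ℝ) := by
      have h5 : ((Matrix.of M).adjugate * Matrix.of M).mulVec (fun l => (q l : ℝ)) j =
          (Matrix.of M).det * (q j : ℝ) := by
        rw [Matrix.adjugate_mul, Matrix.smul_mulVec, Matrix.one_mulVec]
        rfl
      rw [← h5, ← Matrix.mulVec_mulVec]
      rfl
    have h6 : |(Matrix.of M).det| * |(q j : ℝ)| ≤ ∑ k, |(Matrix.of M).adjugate j k| * R := by
      rw [← abs_mul, h4]
      refine (Finset.abs_sum_le_sum_abs _ _).trans (Finset.sum_le_sum fun k _ => ?_)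
      rw [abs_mul]
      exact mul_le_mul_of_nonneg_left (hq k) (abs_nonneg _)
    rw [hg]
    show _ ≤ |(Matrix.of M).det|⁻¹ * _
    rw [le_inv_mul_iff₀ (abs_pos.2 hMd)]
    exact h6
  have h7 : ∀ j, |q j| ≤ B := by
    intro j
    have h8 : |(q j : ℝ)| ≤ ∑ j, (|g L j| + 1) := by
      refine (h3 j).trans ((hM j).le.trans ?_)
      refine le_trans ?_ (Finset.single_le_sum (f := fun j => |g L j| + 1)
        (fun i _ => by positivity) (Finset.mem_univ j))
      have := le_abs_self (g L j)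
      show g L j + 1 ≤ |g L j| + 1
      linarith
    have h9 : ((|q j| : ℤ) : ℝ) ≤ B := by
      rw [Int.cast_abs]
      exact h8.trans (Int.le_ceil _)
    exact_mod_cast h9
  exact ⟨fun j => (abs_le.1 (h7 j)).1, fun j => (abs_le.1 (h7 j)).2⟩

/-- a positive combination of the absolute values of the forms has a minimum -/
lemma exists_min {L : Fin n → Fin n → ℝ} (hL : LinearIndependent ℝ L) {c : Fin n → ℝ}
    (hc : ∀ i, 0 < c i) {T : Set (Fin n → ℤ)} (hT : T.Nonempty) :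
    ∃ p ∈ T, ∀ q ∈ T, ∑ i, c i * |∑ j, L i j * (p j : ℝ)| ≤
      ∑ i, c i * |∑ j, L i j * (q j : ℝ)| := by
  classical
  obtain ⟨q₀, hq₀⟩ := hT
  set w : (Fin n → ℤ) → ℝ := fun q => ∑ i, c i * |∑ j, L i j * (q j : ℝ)| with hw
  obtain ⟨Q, hQ, hev⟩ := finite_near hL (∑ i, w q₀ / c i)
  have h1 := hev.self_of_nhds
  have hw0 : ∀ q, 0 ≤ w q := fun q => Finset.sum_nonneg fun i _ =>
    mul_nonneg (hc i).le (abs_nonneg _)
  have hfin : {q | q ∈ T ∧ w q ≤ w q₀}.Finite := by
    refine hQ.subset ?_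
    rintro q ⟨-, hq⟩
    refine h1 q fun i => ?_
    have h2 : c i * |∑ j, L i j * (q j : ℝ)| ≤ w q₀ := by
      refine le_trans ?_ hq
      exact Finset.single_le_sum (f := fun i => c i * |∑ j, L i j * (q j : ℝ)|)
        (fun i _ => mul_nonneg (hc i).le (abs_nonneg _)) (Finset.mem_univ i)
    have h3 : |∑ j, L i j * (q j : ℝ)| ≤ w q₀ / c i := by
      rw [le_div_iff₀ (hc i), mul_comm]
      exact h2
    refine h3.trans (Finset.single_le_sum (f := fun i => w q₀ / c i)
      (fun i _ => div_nonneg (hw0 _) (hc i).le) (Finset.mem_univ i))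
  obtain ⟨p, ⟨hp1, hp2⟩, hp3⟩ := Set.exists_min_image _ w hfin ⟨q₀, hq₀, le_rfl⟩
  refine ⟨p, hp1, fun q hq => ?_⟩
  by_cases h : w q ≤ w q₀
  · exact hp3 q ⟨hq, h⟩
  · exact hp2.trans (not_le.1 h).le

lemma sign_sq (u : ℤˣ) : ((u : ℤ) : ℝ) * ((u : ℤ) : ℝ) = 1 := by
  rcases Int.units_eq_one_or u with h | h <;> simp [h]

lemma sign_abs (u : ℤˣ) : |((u : ℤ) : ℝ)| = 1 := by
  rcases Int.units_eq_one_or u with h | h <;> simp [h]

/-- an integer point of the orthant of bounded size -/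
lemma orthant_point {L : Fin n → Fin n → ℝ} (hL : LinearIndependent ℝ L)
    (s : Fin n → ℤˣ) {R : ℝ} (hR : ∀ i j, |L i j| ≤ R) :
    ∃ q ∈ Orthant s L, ∀ i, |∑ j, L i j * (q j : ℝ)| ≤ 2 * (n * R) + 1 := by
  classical
  have hdet : (Matrix.of L).det ≠ 0 := Pool.Agent.H905R2.Opp.det_ne hL
  set x : Fin n → ℝ := (Matrix.of L)⁻¹.mulVec (fun i => ((s i : ℤ) : ℝ)) with hx
  have hxi : ∀ i, ∑ j, L i j * x j = ((s i : ℤ) : ℝ) := by
    intro i
    have h1 : (Matrix.of L).mulVec x = fun i => ((s i : ℤ) : ℝ) := by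
      rw [hx, Matrix.mulVec_mulVec, Matrix.mul_nonsing_inv _ (isUnit_iff_ne_zero.2 hdet),
        Matrix.one_mulVec]
    exact congrFun h1 i
  set t : ℝ := n * R + 1 with ht
  set q : Fin n → ℤ := fun j => round (t * x j) with hq
  have herr : ∀ i, |∑ j, L i j * (q j : ℝ) - t * ((s i : ℤ) : ℝ)| ≤ n * R := by
    intro i
    have h1 : ∑ j, L i j * (q j : ℝ) - t * ((s i : ℤ) : ℝ) =
        ∑ j, L i j * ((q j : ℝ) - t * x j) := by
      rw [← hxi i, Finset.mul_sum, ← Finset.sum_sub_distrib]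
      refine Finset.sum_congr rfl fun j _ => ?_
      ring
    rw [h1]
    refine (Finset.abs_sum_le_sum_abs _ _).trans ?_
    have h2 : ∀ j ∈ Finset.univ, |L i j * ((q j : ℝ) - t * x j)| ≤ R := by
      intro j _
      rw [abs_mul]
      have h3 : |(q j : ℝ) - t * x j| ≤ 1 := by
        rw [abs_sub_comm]
        have := abs_sub_round (t * x j)
        rw [hq]
        linarith
      calc |L i j| * |(q j : ℝ) - t * x j| ≤ |L i j| * 1 :=
            mul_le_mul_of_nonneg_left h3 (abs_nonneg _)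
        _ ≤ R := by rw [mul_one]; exact hR i j
    refine (Finset.sum_le_sum h2).trans (le_of_eq ?_)
    rw [Finset.sum_const, Finset.card_univ, Fintype.card_fin, nsmul_eq_mul]
  refine ⟨q, fun i => ?_, fun i => ?_⟩
  · have h1 := herr i
    have h2 : ((s i : ℤ) : ℝ) * ∑ j, L i j * (q j : ℝ) = t +
        ((s i : ℤ) : ℝ) * (∑ j, L i j * (q j : ℝ) - t * ((s i : ℤ) : ℝ)) := by
      have := sign_sq (s i)
      linear_combination t * this
    have h3 : |((s i : ℤ) : ℝ) * (∑ j, L i j * (q j : ℝ) - t * ((s i : ℤ) : ℝ))| ≤ n * R := by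
      rw [abs_mul, sign_abs, one_mul]
      exact h1
    rw [h2]
    have h4 := (abs_le.1 h3).1
    rw [ht]
    linarith
  · have h1 := herr i
    have h2 : ∑ j, L i j * (q j : ℝ) = (∑ j, L i j * (q j : ℝ) - t * ((s i : ℤ) : ℝ)) +
        t * ((s i : ℤ) : ℝ) := by ring
    have hnR : 0 ≤ (n : ℝ) * R := by
      refine mul_nonneg (Nat.cast_nonneg _) ?_
      exact (abs_nonneg _).trans (hR i i)
    have h3 : |t * ((s i : ℤ) : ℝ)| = t := by
      rw [abs_mul, sign_abs, mul_one, abs_of_pos (by rw [ht]; linarith)]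
    rw [h2]
    refine (abs_add_le _ _).trans ?_
    rw [h3, ht]
    linarith

lemma orthant_nonempty {L : Fin n → Fin n → ℝ} (hL : LinearIndependent ℝ L)
    (s : Fin n → ℤˣ) : (Orthant s L).Nonempty := by
  classical
  obtain ⟨q, hq, -⟩ := orthant_point hL s (R := ∑ i, ∑ j, |L i j|) (fun i j => by
    refine (Finset.single_le_sum (f := fun j => |L i j|) (fun j _ => abs_nonneg _)
      (Finset.mem_univ j)).trans ?_
    exact Finset.single_le_sum (f := fun i => ∑ j, |L i j|)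
      (fun i _ => Finset.sum_nonneg fun j _ => abs_nonneg _) (Finset.mem_univ i))
  exact ⟨q, hq⟩

/-- on the orthant the absolute values of the forms are linear -/
lemma abs_orthant {s : Fin n → ℤˣ} {L : Fin n → Fin n → ℝ} {q : Fin n → ℤ}
    (hq : q ∈ Orthant s L) (i : Fin n) :
    |∑ j, L i j * (q j : ℝ)| = ((s i : ℤ) : ℝ) * ∑ j, L i j * (q j : ℝ) := by
  have h1 := hq i
  have h2 : |((s i : ℤ) : ℝ) * ∑ j, L i j * (q j : ℝ)| = |∑ j, L i j * (q j : ℝ)| := by
    rw [abs_mul, sign_abs, one_mul]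
  rw [← h2, abs_of_pos h1]

lemma orthant_ne_zero (hn : 3 ≤ n) {s : Fin n → ℤˣ} {L : Fin n → Fin n → ℝ} {q : Fin n → ℤ}
    (hq : q ∈ Orthant s L) : q ≠ 0 := by
  rintro rfl
  have h1 := hq ⟨0, by omega⟩
  simp at h1

/-- a combination with different values at all integer points -/
lemma exists_generic (hn : 3 ≤ n) {L : Fin n → Fin n → ℝ} (hb : BoundedAway L)
    (s : Fin n → ℤˣ) : ∃ t : ℝ, 0 < t ∧ ∀ r : Fin n → ℤ, r ≠ 0 →
      ∑ i : Fin n, t ^ (i : ℕ) * (((s i : ℤ) : ℝ) * ∑ j, L i j * (r j : ℝ)) ≠ 0 := by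
  classical
  set P : (Fin n → ℤ) → Polynomial ℝ := fun r => ∑ i : Fin n,
    Polynomial.C (((s i : ℤ) : ℝ) * ∑ j, L i j * (r j : ℝ)) * Polynomial.X ^ (i : ℕ) with hP
  have hPne : ∀ r : Fin n → ℤ, r ≠ 0 → P r ≠ 0 := by
    intro r hr h0
    have h1 : (P r).coeff 0 = ((s ⟨0, by omega⟩ : ℤ) : ℝ) * ∑ j, L ⟨0, by omega⟩ j * (r j : ℝ) := by
      rw [hP]
      simp only [Polynomial.finsetSum_coeff, Polynomial.coeff_C_mul, Polynomial.coeff_X_pow]
      rw [Finset.sum_eq_single (⟨0, by omega⟩ : Fin n)]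
      · simp
      · intro i _ hi
        have : (0 : ℕ) ≠ (i : ℕ) := fun h => hi (Fin.ext h.symm)
        rw [if_neg this, mul_zero]
      · intro h
        exact absurd (Finset.mem_univ _) h
    rw [h0, Polynomial.coeff_zero] at h1
    rcases mul_eq_zero.1 h1.symm with h | h
    · have := sign_sq (s ⟨0, by omega⟩)
      rw [h, zero_mul] at this
      exact zero_ne_one this
    · exact lf_ne hb hr _ h
  have hbad : (⋃ r : {r : Fin n → ℤ // r ≠ 0}, {t : ℝ | (P r.1).IsRoot t}).Countable :=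
    Set.countable_iUnion fun r => (Polynomial.finite_setOfPred_isRoot (hPne r.1 r.2)).countable
  obtain ⟨t, ht1, ht2⟩ := (hbad.dense_compl ℝ).exists_mem_open (isOpen_Ioi (a := (0 : ℝ)))
    ⟨1, Set.mem_Ioi.2 one_pos⟩
  refine ⟨t, ht2, fun r hr h0 => ht1 ?_⟩
  refine Set.mem_iUnion.2 ⟨⟨r, hr⟩, ?_⟩
  show (P r).eval t = 0
  rw [hP]
  simp only [Polynomial.eval_finsetSum, Polynomial.eval_mul, Polynomial.eval_C,
    Polynomial.eval_pow, Polynomial.eval_X]
  rw [← h0]
  exact Finset.sum_congr rfl fun i _ => mul_comm _ _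

lemma vertices_nonempty (hn : 3 ≤ n) {L : Fin n → Fin n → ℝ} (hL : LinearIndependent ℝ L)
    (hb : BoundedAway L) (s : Fin n → ℤˣ) : (Vertices s L).Nonempty := by
  obtain ⟨t, ht, hgen⟩ := exists_generic hn hb s
  obtain ⟨p, hp, hmin⟩ := exists_min hL (c := fun i : Fin n => t ^ (i : ℕ))
    (fun i => pow_pos ht _) (orthant_nonempty hL s)
  refine ⟨p, hp, fun i => t ^ (i : ℕ), fun i => pow_pos ht _, fun q hq hqp => ?_⟩
  refine lt_of_le_of_ne (hmin q hq) fun heq => ?_
  refine hgen (q - p) (sub_ne_zero.2 hqp) ?_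
  have h1 : ∀ i, ((s i : ℤ) : ℝ) * ∑ j, L i j * (((q - p) j : ℤ) : ℝ) =
      |∑ j, L i j * (q j : ℝ)| - |∑ j, L i j * (p j : ℝ)| := by
    intro i
    rw [abs_orthant hq, abs_orthant hp, ← mul_sub, ← Finset.sum_sub_distrib]
    congr 1
    refine Finset.sum_congr rfl fun j _ => ?_
    rw [Pi.sub_apply]
    push_cast
    ring
  simp_rw [h1, mul_sub]
  rw [Finset.sum_sub_distrib]
  linarith [heq]

lemma relMin_nonempty {L : Fin n → Fin n → ℝ} (hn : 3 ≤ n) (hL : LinearIndependent ℝ L) :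
    (RelativeMinima L).Nonempty := by
  obtain ⟨p, hp, hmin⟩ := exists_min hL (c := fun _ : Fin n => 1) (fun _ => one_pos)
    (T := {q | q ≠ 0}) ⟨fun _ => 1, fun h0 => by
      have := congrFun h0 ⟨0, by omega⟩
      simp at this⟩
  refine ⟨p, hp, fun q hq => ?_⟩
  by_contra hcon
  push Not at hcon
  have h1 := hmin q hq
  refine absurd h1 (not_le.2 ?_)
  refine Finset.sum_lt_sum_of_nonempty ⟨⟨0, by omega⟩, Finset.mem_univ _⟩ fun i _ => ?_
  simpa using hcon i

theorem sel_orthant (hn : 3 ≤ n) (s : Fin n → ℤˣ) : Selection (Orthant s : (Fin n → Fin n → ℝ) → _)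
    where
  nonzero := fun L _ _ p hp => orthant_ne_zero hn hp
  equivariant := by
    intro L L' a γ _ _ ha _ _ h p hp i
    have h1 := hp i
    rw [lf_orbit h p] at h1
    have h2 : ((s i : ℤ) : ℝ) * (a i * ∑ k, L i k * ((γ.mulVec p) k : ℝ)) =
        a i * (((s i : ℤ) : ℝ) * ∑ k, L i k * ((γ.mulVec p) k : ℝ)) := by ring
    rw [h2] at h1
    exact (mul_pos_iff_of_pos_left (ha i)).1 h1
  isOpen := by
    intro L _ _ p hp
    refine Filter.eventually_all.2 fun i => ?_
    exact ((continuous_const.mul (cont_lf i p)).continuousAt).eventually (lt_mem_nhds (hp i))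

theorem sel_vertices (hn : 3 ≤ n) (s : Fin n → ℤˣ) :
    Selection (Vertices s : (Fin n → Fin n → ℝ) → _) where
  nonzero := fun L _ _ p hp => orthant_ne_zero hn hp.1
  equivariant := by
    intro L L' a γ hL hb ha ha1 hγ h p hp
    obtain ⟨hp1, c, hc, hp2⟩ := hp
    refine ⟨(sel_orthant hn s).equivariant L L' a γ hL hb ha ha1 hγ h p hp1, fun i => c i * a i,
      fun i => mul_pos (hc i) (ha i), fun q hq hqp => ?_⟩
    obtain ⟨q', rfl⟩ := mulVec_surj hγ q
    have hval : ∀ r : Fin n → ℤ, ∑ i, c i * a i * |∑ j, L i j * ((γ.mulVec r) j : ℝ)| =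
        ∑ i, c i * |∑ j, L' i j * (r j : ℝ)| := by
      intro r
      refine Finset.sum_congr rfl fun i _ => ?_
      rw [lf_orbit h r, abs_mul, abs_of_pos (ha i), mul_assoc]
    rw [hval, hval]
    refine hp2 q' (fun i => ?_) (fun h0 => hqp (by rw [h0]))
    rw [lf_orbit h q']
    have h2 : ((s i : ℤ) : ℝ) * (a i * ∑ k, L i k * ((γ.mulVec q') k : ℝ)) =
        a i * (((s i : ℤ) : ℝ) * ∑ k, L i k * ((γ.mulVec q') k : ℝ)) := by ring
    rw [h2]
    exact mul_pos (ha i) (hq i)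
  isOpen := by
    intro L hL hb p hp
    obtain ⟨hp1, c, hc, hp2⟩ := hp
    have hcw : ∀ q : Fin n → ℤ, Continuous (fun M : Fin n → Fin n → ℝ =>
        ∑ i, c i * |∑ j, M i j * (q j : ℝ)|) := fun q =>
      continuous_finsetSum _ fun i _ => continuous_const.mul (cont_lf i q).abs
    set R : ℝ := ∑ i, c i * |∑ j, L i j * (p j : ℝ)| + 1 with hR
    have hR0 : 0 ≤ R := by
      have : 0 ≤ ∑ i, c i * |∑ j, L i j * (p j : ℝ)| := Finset.sum_nonneg fun i _ =>
        mul_nonneg (hc i).le (abs_nonneg _)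
      linarith
    obtain ⟨Q, hQ, hev⟩ := finite_near hL (∑ i, R / c i)
    have hev1 : ∀ᶠ M in 𝓝 L, ∑ i, c i * |∑ j, M i j * (p j : ℝ)| < R :=
      (hcw p).continuousAt.eventually (gt_mem_nhds (by linarith))
    have hev2 : ∀ᶠ M in 𝓝 L, ∀ q ∈ Q, q ∈ Orthant s M → q ≠ p →
        ∑ i, c i * |∑ j, M i j * (p j : ℝ)| < ∑ i, c i * |∑ j, M i j * (q j : ℝ)| := by
      refine (Filter.eventually_all_finite hQ).2 fun q _ => ?_
      by_cases hqp : q = p
      · exact Filter.Eventually.of_forall fun M _ h => absurd hqp h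
      by_cases hq : q ∈ Orthant s L
      · have h1 := hp2 q hq hqp
        have h2 := ContinuousAt.eventually_lt (hcw p).continuousAt (hcw q).continuousAt h1
        exact h2.mono fun M hM _ _ => hM
      · have h1 : ∃ i, ((s i : ℤ) : ℝ) * ∑ j, L i j * (q j : ℝ) ≤ 0 := by
          by_contra hcon
          push Not at hcon
          exact hq hcon
        obtain ⟨i, hi⟩ := h1
        by_cases hq0 : q = 0
        · exact Filter.Eventually.of_forall fun M hM => absurd hq0 (orthant_ne_zero hn hM)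
        have h2 : ((s i : ℤ) : ℝ) * ∑ j, L i j * (q j : ℝ) < 0 := by
          refine lt_of_le_of_ne hi fun h0 => ?_
          rcases mul_eq_zero.1 h0 with h | h
          · have := sign_sq (s i)
            rw [h, zero_mul] at this
            exact zero_ne_one this
          · exact lf_ne hb hq0 i h
        have h3 : ∀ᶠ M in 𝓝 L, ((s i : ℤ) : ℝ) * ∑ j, M i j * (q j : ℝ) < 0 :=
          (continuous_const.mul (cont_lf i q)).continuousAt.eventually (gt_mem_nhds h2)
        exact h3.mono fun M hM hMq => absurd (hMq i) (not_lt.2 hM.le)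
    filter_upwards [(sel_orthant hn s).isOpen L hL hb p hp1, hev, hev1, hev2] with M h1 h2 h3 h4
    refine ⟨h1, c, hc, fun q hq hqp => ?_⟩
    by_contra hcon
    push Not at hcon
    refine absurd (h4 q (h2 q fun i => ?_) hq hqp) (not_lt.2 hcon)
    have h5 : c i * |∑ j, M i j * (q j : ℝ)| ≤ R := by
      refine le_trans ?_ (hcon.trans h3.le)
      exact Finset.single_le_sum (f := fun i => c i * |∑ j, M i j * (q j : ℝ)|)
        (fun i _ => mul_nonneg (hc i).le (abs_nonneg _)) (Finset.mem_univ i)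
    have h6 : |∑ j, M i j * (q j : ℝ)| ≤ R / c i := by
      rw [le_div_iff₀ (hc i), mul_comm]
      exact h5
    exact h6.trans (Finset.single_le_sum (f := fun i => R / c i)
      (fun i _ => div_nonneg hR0 (hc i).le) (Finset.mem_univ i))

theorem sel_relMin (hn : 3 ≤ n) :
    Selection (RelativeMinima : (Fin n → Fin n → ℝ) → _) where
  nonzero := fun L _ _ p hp => hp.1
  equivariant := by
    intro L L' a γ _ _ ha _ hγ h p hp
    obtain ⟨hp1, hp2⟩ := hp
    refine ⟨mulVec_ne_zero hγ hp1, fun q hq => ?_⟩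
    obtain ⟨q', rfl⟩ := mulVec_surj hγ q
    obtain ⟨i, hi⟩ := hp2 q' (fun h0 => hq (by rw [h0, Matrix.mulVec_zero]))
    refine ⟨i, ?_⟩
    rw [lf_orbit h p, lf_orbit h q', abs_mul, abs_mul, abs_of_pos (ha i)] at hi
    exact le_of_mul_le_mul_left hi (ha i)
  isOpen := by
    intro L hL hb p hp
    obtain ⟨hp1, hp2⟩ := hp
    set R : ℝ := ∑ i, |∑ j, L i j * (p j : ℝ)| + 1 with hR
    obtain ⟨Q, hQ, hev⟩ := finite_near hL R
    have hev1 : ∀ᶠ M in 𝓝 L, ∀ i, |∑ j, M i j * (p j : ℝ)| < R := by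
      refine Filter.eventually_all.2 fun i => ?_
      refine (cont_lf i p).abs.continuousAt.eventually (gt_mem_nhds ?_)
      have := Finset.single_le_sum (f := fun i => |∑ j, L i j * (p j : ℝ)|)
        (fun i _ => abs_nonneg _) (Finset.mem_univ i)
      linarith
    have hev2 : ∀ᶠ M in 𝓝 L, ∀ q ∈ Q, q ≠ 0 →
        ∃ i, |∑ j, M i j * (p j : ℝ)| ≤ |∑ j, M i j * (q j : ℝ)| := by
      refine (Filter.eventually_all_finite hQ).2 fun q _ => ?_
      by_cases hq0 : q = 0
      · exact Filter.Eventually.of_forall fun M h => absurd hq0 h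
      by_cases hqp : q = p
      · exact Filter.Eventually.of_forall fun M _ => ⟨⟨0, by omega⟩, by rw [hqp]⟩
      by_cases hqn : q = -p
      · refine Filter.Eventually.of_forall fun M _ => ⟨⟨0, by omega⟩, ?_⟩
        rw [hqn]
        have : ∑ j, M ⟨0, by omega⟩ j * (((-p) j : ℤ) : ℝ) =
            -∑ j, M ⟨0, by omega⟩ j * (p j : ℝ) := by
          rw [← Finset.sum_neg_distrib]
          refine Finset.sum_congr rfl fun j _ => ?_
          rw [Pi.neg_apply]
          push_cast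
          ring
        rw [this, abs_neg]
      obtain ⟨i, hi⟩ := hp2 q hq0
      have h1 : |∑ j, L i j * (p j : ℝ)| < |∑ j, L i j * (q j : ℝ)| := by
        refine lt_of_le_of_ne hi fun heq => ?_
        rcases abs_eq_abs.1 heq with h | h
        · refine lf_ne hb (sub_ne_zero.2 hqp) i ?_
          have : ∑ j, L i j * (((q - p) j : ℤ) : ℝ) =
              ∑ j, L i j * (q j : ℝ) - ∑ j, L i j * (p j : ℝ) := by
            rw [← Finset.sum_sub_distrib]
            refine Finset.sum_congr rfl fun j _ => ?_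
            rw [Pi.sub_apply]
            push_cast
            ring
          rw [this, h, sub_self]
        · refine lf_ne hb (q := q + p) (fun h0 => hqn (eq_neg_of_add_eq_zero_left h0)) i ?_
          have : ∑ j, L i j * (((q + p) j : ℤ) : ℝ) =
              ∑ j, L i j * (q j : ℝ) + ∑ j, L i j * (p j : ℝ) := by
            rw [← Finset.sum_add_distrib]
            refine Finset.sum_congr rfl fun j _ => ?_
            rw [Pi.add_apply]
            push_cast
            ring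
          rw [this, h]
          ring
      have h2 := ContinuousAt.eventually_lt (cont_lf i p).abs.continuousAt
        (cont_lf i q).abs.continuousAt h1
      exact h2.mono fun M hM _ => ⟨i, hM.le⟩
    filter_upwards [hev, hev1, hev2] with M h2 h3 h4
    refine ⟨hp1, fun q hq => ?_⟩
    by_contra hcon
    push Not at hcon
    obtain ⟨i, hi⟩ := h4 q (h2 q fun i => ((hcon i).trans (h3 i)).le) hq
    exact absurd (hcon i) (not_lt.2 hi)

/-! ### Limits along a direction -/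

/-- the limit set along a direction contains the limits of its elements -/
lemma limits_sub_YT {θ : Fin n → ℝ} {δ : ℝ} {L M : Fin n → Fin n → ℝ}
    (hM : Matrix.of M ∈ Pool.Agent.R750.CV.YT θ δ (Matrix.of L)) {M' : Fin n → Fin n → ℝ}
    (hM' : M' ∈ Limits M) : Matrix.of M' ∈ Pool.Agent.R750.CV.YT θ δ (Matrix.of L) := by
  have h1 : Matrix.of M' ∈ closure (H715R2.Orb (Matrix.of M)) :=
    (IndependentCoefficients.limits_eq M M').1 hM'
  refine closure_minimal ?_ (Pool.Agent.R750.CV.YT_closed θ δ (Matrix.of L)) h1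
  rintro _ ⟨a, γ, ha0, ha1, hγ, rfl⟩
  exact Pool.Agent.R750.CV.YT_inv θ δ (Matrix.of L) _ hM a γ ha0 ha1 hγ

lemma limitAlong_of {S : (Fin n → Fin n → ℝ) → Set (Fin n → ℤ)} (hS : Selection S)
    {θ : Fin n → ℝ} {δ : ℝ} {L M : Fin n → Fin n → ℝ} (hL : LinearIndependent ℝ L)
    (hb : BoundedAway L) (hLM : LinearIndependent ℝ M) (hbM : BoundedAway M)
    (hM : Matrix.of M ∈ Pool.Agent.R750.CV.YT θ δ (Matrix.of L)) {p : Fin n → ℤ}
    (hp : p ∈ S M) : |F M p| ∈ LimitAlong S θ δ L := by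
  classical
  intro ε N hε
  have hp0 := hS.nonzero M hLM hbM p hp
  have hpos : ∀ k, 0 < |∑ j, M k j * (p j : ℝ)| := fun k => abs_pos.2 (lf_ne hbM hp0 k)
  obtain ⟨C, hC⟩ := exists_nat_ge (∑ k, (|Real.log (|∑ j, M k j * (p j : ℝ)|)| + 1))
  have hCk : ∀ k, |Real.log (|∑ j, M k j * (p j : ℝ)|)| + 1 ≤ C := fun k =>
    (Finset.single_le_sum (f := fun k => |Real.log (|∑ j, M k j * (p j : ℝ)|)| + 1)
      (fun k _ => by positivity) (Finset.mem_univ k)).trans hC
  have hopen : ∀ᶠ M' in 𝓝 M, p ∈ S M' ∧ (∀ k, |Real.log (|∑ j, M' k j * (p j : ℝ)|)| < C ∧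
      ∑ j, M' k j * (p j : ℝ) ≠ 0) ∧ |(|F M' p| - |F M p|)| < ε := by
    refine (hS.isOpen M hLM hbM p hp).and ((Filter.eventually_all.2 fun k => ?_).and ?_)
    · have hc : Tendsto (fun M' : Fin n → Fin n → ℝ => |∑ j, M' k j * (p j : ℝ)|) (𝓝 M)
          (𝓝 |∑ j, M k j * (p j : ℝ)|) := ((cont_lf k p).tendsto M).abs
      have hl := ((Real.continuousAt_log (hpos k).ne').tendsto.comp hc).abs
      refine (hl.eventually (gt_mem_nhds ?_)).and ?_
      · have := hCk k
        linarith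
      · filter_upwards [hc.eventually (lt_mem_nhds (hpos k))] with h' hh'
        exact abs_pos.1 hh'
    · have h1 : Tendsto (fun M' : Fin n → Fin n → ℝ => |(|F M' p| - |F M p|)|) (𝓝 M) (𝓝 0) := by
        have := ((((continuous_F p).tendsto M).abs).sub_const |F M p|).abs
        rwa [sub_self, abs_zero] at this
      exact h1.eventually (gt_mem_nhds hε)
  have hmem : M ∈ closure (Pool.Agent.R750.CV.OrbT θ δ (Matrix.of L) (N + C) :
    Set (Fin n → Fin n → ℝ)) := Set.mem_iInter.1 hM (N + C)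
  obtain ⟨M', ⟨h0, h1, h2⟩, a, γ, u, ha0, ha1, hs1, hs2, hγ, hh⟩ :=
    mem_closure_iff_nhds.1 hmem _ hopen
  have hM' : ∀ i j, M' i j = a i * ∑ k, L i k * (γ k j : ℝ) := by
    intro i j
    rw [hh, Matrix.mul_assoc, Matrix.diagonal_mul, Matrix.mul_apply]
    rfl
  have hγ1 : |γ.det| = 1 := Int.isUnit_iff_abs_eq.1 hγ
  refine ⟨γ.mulVec p, hS.equivariant L M' a γ hL hb ha0 ha1 hγ1 hM' p h0, u, ?_, fun k => ?_, ?_⟩
  · push_cast at hs1
    have : (0 : ℝ) ≤ C := Nat.cast_nonneg _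
    linarith
  · obtain ⟨h3, h4⟩ := h1 k
    rw [lf_orbit hM' p k] at h3 h4
    have h5 : ∑ j, L k j * ((γ.mulVec p) j : ℝ) ≠ 0 := fun h0 => h4 (by rw [h0, mul_zero])
    rw [abs_mul, abs_of_pos (ha0 k), Real.log_mul (ha0 k).ne' (abs_pos.2 h5).ne'] at h3
    have h6 := hs2 k
    push_cast at h6
    have h7 : (0 : ℝ) ≤ N := Nat.cast_nonneg _
    calc |Real.log (|∑ j, L k j * ((γ.mulVec p) j : ℝ)|) - θ k * u|
        = |(Real.log (a k) + Real.log (|∑ j, L k j * ((γ.mulVec p) j : ℝ)|)) -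
            (Real.log (a k) + θ k * u)| := by
          congr 1; ring
      _ ≤ |Real.log (a k) + Real.log (|∑ j, L k j * ((γ.mulVec p) j : ℝ)|)| +
            |Real.log (a k) + θ k * u| := abs_sub _ _
      _ ≤ δ * u := by linarith
  · rw [← F_orbit ha1 hM' p]
    exact h2

/-- countably many limit values along one direction -/
lemma of_direction (hn : 3 ≤ n) {S : (Fin n → Fin n → ℝ) → Set (Fin n → ℤ)} (hS : Selection S)
    {L : Fin n → Fin n → ℝ} (hL : LinearIndependent ℝ L) (hb : BoundedAway L)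
    (hne : ∀ M ∈ Limits L, (S M).Nonempty) {θ : Fin n → ℝ} (hθ : ∑ k, θ k = 0) {δ : ℝ}
    (hδ : 0 < δ) (hC : (LimitAlong S θ δ L).Countable) : HasMatrix L := by
  have hdet := Pool.Agent.H905R2.Opp.det_ne hL
  obtain ⟨ν, hν, hnu⟩ := id hb
  obtain ⟨h, hh⟩ := Pool.Agent.R750.CV.YT_nonempty (by omega : 0 < n) hθ hδ hdet hν hnu
  obtain ⟨M₀, rfl⟩ : ∃ M₀ : Fin n → Fin n → ℝ, Matrix.of M₀ = h := ⟨h, rfl⟩
  have hM₀ : M₀ ∈ Limits L := (IndependentCoefficients.limits_eq L M₀).2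
    (Pool.Agent.R750.CV.YT_subset θ δ _ hh)
  obtain ⟨hL0, hb0, hc0⟩ := limit_props hn hL hb hM₀
  by_contra hA
  obtain ⟨L', hL', hrec⟩ := exists_recurrent hn hL0 hb0
  obtain ⟨a, b, c⟩ := limit_props hn hL0 hb0 hL'
  obtain ⟨M, -, hM, hM2⟩ := mem_closure_iff.1
    (dense_avoid hn a b (fun h => hA (hc0.2 (c.2 h))) hrec hC (self_mem L')) _ isOpen_univ
    (Set.mem_univ L')
  have hMM := limits_trans hL' hM
  have hML := limits_trans hM₀ hMM
  obtain ⟨a', b', -⟩ := limit_props hn hL hb hML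
  obtain ⟨p, hp⟩ := hne M hML
  exact hM2 p (hS.nonzero M a' b' p hp)
    (limitAlong_of hS hL hb a' b' (limits_sub_YT hh hMM) hp)

lemma direction_of (hn : 3 ≤ n) {S : (Fin n → Fin n → ℝ) → Set (Fin n → ℤ)}
    {L : Fin n → Fin n → ℝ} (hL : LinearIndependent ℝ L) (hb : BoundedAway L) (hA : HasMatrix L)
    (θ : Fin n → ℝ) (δ : ℝ) : (LimitAlong S θ δ L).Countable := by
  refine (countable_closure_of (S := S) hn hL hb hA).mono ?_
  intro t ht
  refine Metric.mem_closure_iff.2 fun ε hε => ?_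
  obtain ⟨p, hp, u, -, -, h⟩ := ht ε 0 hε
  refine ⟨_, ⟨p, hp, rfl⟩, ?_⟩
  rw [dist_comm, Real.dist_eq]
  exact h

/-! ### Bounds for the values -/

lemma root_pow (hn : 3 ≤ n) {x : ℝ} (hx : 0 < x) : (x ^ ((1 : ℝ) / n)) ^ n = x := by
  have hn' : (n : ℝ) ≠ 0 := by exact_mod_cast (by omega : n ≠ 0)
  rw [← Real.rpow_natCast, ← Real.rpow_mul hx.le, one_div, inv_mul_cancel₀ hn', Real.rpow_one]

lemma vertices_bound (hn : 3 ≤ n) {L : Fin n → Fin n → ℝ} (hL : LinearIndependent ℝ L)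
    (hb : BoundedAway L) (s : Fin n → ℤˣ) : ∃ B : ℝ, ∀ p ∈ Vertices s L, |F L p| ≤ B := by
  classical
  obtain ⟨ν, hν, hnu⟩ := id hb
  have hdet : (Matrix.of L).det ≠ 0 := Pool.Agent.H905R2.Opp.det_ne hL
  have hn0 : (0 : ℝ) < n := by exact_mod_cast (by omega : 0 < n)
  obtain ⟨R, hR⟩ := H715R2.exists_bound (d := n) (by omega) |(Matrix.of L).det| ν
    (abs_pos.2 hdet) hν
  refine ⟨(2 * (n * R) + 1) ^ n, ?_⟩
  rintro p ⟨hp, c, hc, hmin⟩
  have hcp : 0 < ∏ i, c i := Finset.prod_pos fun i _ => hc i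
  set g : ℝ := (∏ i, c i) ^ ((1 : ℝ) / n) with hg
  have hg0 : 0 < g := Real.rpow_pos_of_pos hcp _
  have hgn : g ^ n = ∏ i, c i := root_pow hn hcp
  set a : Fin n → ℝ := fun i => c i / g with ha
  have ha0 : ∀ i, 0 < a i := fun i => div_pos (hc i) hg0
  have ha1 : ∏ i, a i = 1 := by
    rw [ha, Finset.prod_div_distrib, Finset.prod_const, Finset.card_univ, Fintype.card_fin, hgn,
      div_self hcp.ne']
  obtain ⟨γ, hγ, hγR⟩ := hR (Matrix.diagonal a * Matrix.of L)
    (by rw [Matrix.det_mul, Matrix.det_diagonal, ha1, one_mul]) (by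
      intro m hm
      rw [H715R2.FF_diag_mul, ha1, one_mul]
      exact hnu m hm)
  have hγ1 : |γ.det| = 1 := Int.isUnit_iff_abs_eq.1 hγ
  set L' : Fin n → Fin n → ℝ := fun i j => a i * ∑ k, L i k * (γ k j : ℝ) with hL'def
  have hL'eq : ∀ i j, (Matrix.diagonal a * Matrix.of L * H715R2.zR γ) i j = L' i j := by
    intro i j
    rw [Matrix.mul_assoc, Matrix.diagonal_mul, Matrix.mul_apply]
    rfl
  have hL'mem : L' ∈ Limits L := subset_closure ⟨a, γ, ha0, ha1, hγ1, fun _ _ => rfl⟩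
  obtain ⟨hL', -, -⟩ := limit_props hn hL hb hL'mem
  obtain ⟨q, hq, hqR⟩ := orthant_point hL' s (R := R) (fun i j => by
    rw [← hL'eq]
    exact hγR i j)
  have hq' : γ.mulVec q ∈ Orthant s L :=
    (sel_orthant hn s).equivariant L L' a γ hL hb ha0 ha1 hγ1 (fun _ _ => rfl) q hq
  have h1 : ∑ i, c i * |∑ j, L i j * (p j : ℝ)| ≤
      ∑ i, c i * |∑ j, L i j * ((γ.mulVec q) j : ℝ)| := by
    by_cases h : γ.mulVec q = p
    · rw [h]
    · exact (hmin _ hq' h).le
  have hdiv : ∀ r : Fin n → ℤ, ∑ i, a i * |∑ j, L i j * (r j : ℝ)| =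
      (∑ i, c i * |∑ j, L i j * (r j : ℝ)|) / g := by
    intro r
    rw [Finset.sum_div]
    refine Finset.sum_congr rfl fun i _ => ?_
    rw [ha]
    ring
  have h2 : ∑ i, a i * |∑ j, L i j * (p j : ℝ)| ≤
      ∑ i, a i * |∑ j, L i j * ((γ.mulVec q) j : ℝ)| := by
    rw [hdiv, hdiv]
    exact div_le_div_of_nonneg_right h1 hg0.le
  have h3 : ∑ i, a i * |∑ j, L i j * ((γ.mulVec q) j : ℝ)| ≤ n * (2 * (n * R) + 1) := by
    have h4 : ∀ i ∈ Finset.univ, a i * |∑ j, L i j * ((γ.mulVec q) j : ℝ)| ≤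
        2 * (n * R) + 1 := by
      intro i _
      have h5 := hqR i
      rw [lf_orbit (L := L) (L' := L') (a := a) (γ := γ) (fun _ _ => rfl) q i, abs_mul,
        abs_of_pos (ha0 i)] at h5
      exact h5
    refine (Finset.sum_le_sum h4).trans (le_of_eq ?_)
    rw [Finset.sum_const, Finset.card_univ, Fintype.card_fin, nsmul_eq_mul]
  have h6 : |F L p| = ∏ i, (a i * |∑ j, L i j * (p j : ℝ)|) := by
    rw [Finset.prod_mul_distrib, ha1, one_mul, ← Finset.abs_prod]
    rfl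
  have hnn : ∀ i, 0 ≤ a i * |∑ j, L i j * (p j : ℝ)| := fun i =>
    mul_nonneg (ha0 i).le (abs_nonneg _)
  rw [h6]
  refine (H715R2.amgm (by omega : 0 < n) _ hnn).trans ?_
  refine pow_le_pow_left₀ (div_nonneg (Finset.sum_nonneg fun i _ => hnn i) hn0.le) ?_ n
  rw [div_le_iff₀ hn0]
  refine (h2.trans h3).trans (le_of_eq ?_)
  ring

lemma relMin_bound (hn : 3 ≤ n) {L : Fin n → Fin n → ℝ} (hL : LinearIndependent ℝ L)
    (hb : BoundedAway L) : ∃ B : ℝ, ∀ p ∈ RelativeMinima L, |F L p| ≤ B := by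
  classical
  obtain ⟨ν, hν, hnu⟩ := id hb
  have hdet : (Matrix.of L).det ≠ 0 := Pool.Agent.H905R2.Opp.det_ne hL
  have hn0 : (0 : ℝ) < n := by exact_mod_cast (by omega : 0 < n)
  have hfac : 0 < (n.factorial : ℝ) * |(Matrix.of L).det| :=
    mul_pos (by positivity) (abs_pos.2 hdet)
  set r : ℝ := n.factorial * |(Matrix.of L).det| + 1 with hr
  have hr1 : 1 ≤ r := by linarith
  have hr0 : 0 < r := by linarith
  have hrn : (n.factorial : ℝ) * |(Matrix.of L).det| < r ^ n := by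
    have h1 : r ^ 1 ≤ r ^ n := pow_le_pow_right₀ hr1 (by omega)
    rw [pow_one] at h1
    linarith
  refine ⟨r ^ n, ?_⟩
  rintro p ⟨hp0, hmin⟩
  by_contra hcon
  push Not at hcon
  have hFpos : 0 < |F L p| := (pow_pos hr0 n).trans hcon
  have hlf : ∀ i, 0 < |∑ j, L i j * (p j : ℝ)| := fun i => abs_pos.2 (lf_ne hb hp0 i)
  set g : ℝ := |F L p| ^ ((1 : ℝ) / n) with hg
  have hg0 : 0 < g := Real.rpow_pos_of_pos hFpos _
  have hgn : g ^ n = |F L p| := root_pow hn hFpos
  have hrg : r < g := by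
    by_contra h
    push Not at h
    have := pow_le_pow_left₀ hg0.le h n
    rw [hgn] at this
    linarith
  set a : Fin n → ℝ := fun i => g / |∑ j, L i j * (p j : ℝ)| with ha
  have ha0 : ∀ i, 0 < a i := fun i => div_pos hg0 (hlf i)
  have ha1 : ∏ i, a i = 1 := by
    rw [ha, Finset.prod_div_distrib, Finset.prod_const, Finset.card_univ, Fintype.card_fin, hgn,
      ← Finset.abs_prod]
    exact div_self hFpos.ne'
  obtain ⟨m, hm, hm1, -, -⟩ := H715R2.exists_vec (by omega) hν hdet hnu hr0 hrn a ha0 ha1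
  obtain ⟨i, hi⟩ := hmin m hm
  have h1 : a i * |∑ j, L i j * (m j : ℝ)| < r := hm1 i
  have h2 : a i * |∑ j, L i j * (p j : ℝ)| = g := by
    rw [ha]
    exact div_mul_cancel₀ _ (hlf i).ne'
  have h3 := mul_le_mul_of_nonneg_left hi (ha0 i).le
  rw [h2] at h3
  linarith

end Pool.Agent.T9h79.OP
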