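import Mathlib
import Pool.Agent.T9h79.OP.Engine
import Pool.Agent.T9h79.OP.CoinDefs
import Pool.Agent.N759.FV.Full
import Pool.Agent.Y327.Unique

/-!
# Coinciding values of products of linear forms
-/

set_option autoImplicit false

open Filter Topology
open Pool.Agent
open Pool.Agent.Results.MP_77d073_nt

namespace Pool.Agent.T9h79.OP

variable {n : ℕ}

/-! ### Pairs of points -/

lemma form_ne {L : Fin n → Fin n → ℝ} (hb : BoundedAway L) {q : Fin n → ℤ} (hq : q ≠ 0)
    (i : Fin n) : form L i q ≠ 0 := lf_ne hb hq i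

lemma cont_form (i : Fin n) (q : Fin n → ℤ) :
    Continuous (fun M : Fin n → Fin n → ℝ => form M i q) := cont_lf i q

lemma nonProp_left {p q : Fin n → ℤ} (h : NonProportional p q) : p ≠ 0 := by
  rintro rfl
  obtain ⟨a, b, hab⟩ := h
  simp at hab

lemma nonProp_right {p q : Fin n → ℤ} (h : NonProportional p q) : q ≠ 0 := by
  rintro rfl
  obtain ⟨a, b, hab⟩ := h
  simp at hab

/-- separated pairs are transverse -/
lemma transverse_of_separated (hn : 3 ≤ n) {L : Fin n → Fin n → ℝ} {p q : Fin n → ℤ}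
    (h : Separated L p q) : Transverse L p q := by
  classical
  refine ⟨⟨0, by omega⟩, ?_⟩
  have h1 : (Finset.univ.filter fun j : Fin n =>
      form L j p * form L ⟨0, by omega⟩ q = form L ⟨0, by omega⟩ p * form L j q) ⊆
      {(⟨0, by omega⟩ : Fin n)} := by
    intro j hj
    rw [Finset.mem_filter] at hj
    rw [Finset.mem_singleton]
    by_contra hne
    exact h j ⟨0, by omega⟩ hne hj.2
  have h2 := Finset.card_le_card h1
  rw [Finset.card_singleton] at h2
  have h3 := (Nat.minFac_prime (by omega : n ≠ 1)).two_le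
  convert lt_of_le_of_lt h2 (by omega : 1 < n.minFac) using 2

/-- nonproportional points are transverse in prime dimension -/
lemma transverse_of_prime (hp : n.Prime) {L : Fin n → Fin n → ℝ} (hL : LinearIndependent ℝ L)
    (hb : BoundedAway L) {p q : Fin n → ℤ} (h : NonProportional p q) : Transverse L p q := by
  classical
  by_contra hcon
  unfold Transverse at hcon
  push Not at hcon
  have hn0 : 0 < n := hp.pos
  set i₀ : Fin n := ⟨0, hn0⟩
  have h1 := hcon i₀
  rw [Nat.Prime.minFac_eq hp] at h1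
  have h2 : ∀ j, form L j p * form L i₀ q = form L i₀ p * form L j q := by
    have h3 : (Finset.univ.filter fun j : Fin n =>
        form L j p * form L i₀ q = form L i₀ p * form L j q) = Finset.univ := by
      refine Finset.eq_univ_of_card _ (le_antisymm (Finset.card_le_univ _) ?_)
      rw [Fintype.card_fin]
      convert h1 using 2
    intro j
    have h4 : j ∈ (Finset.univ.filter fun j : Fin n =>
        form L j p * form L i₀ q = form L i₀ p * form L j q) := by
      rw [h3]
      exact Finset.mem_univ j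
    exact (Finset.mem_filter.1 h4).2
  have hdet : (Matrix.of L).det ≠ 0 := Pool.Agent.H905R2.Opp.det_ne hL
  set v : Fin n → ℝ := fun a => (p a : ℝ) * form L i₀ q - form L i₀ p * (q a : ℝ) with hv
  have h5 : (Matrix.of L).mulVec v = 0 := by
    funext j
    have h6 : (Matrix.of L).mulVec v j = form L j p * form L i₀ q - form L i₀ p * form L j q := by
      show ∑ a, L j a * v a = _
      unfold form
      rw [Finset.sum_mul, Finset.mul_sum, ← Finset.sum_sub_distrib]
      refine Finset.sum_congr rfl fun a _ => ?_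
      simp only [hv, form]
      ring
    rw [h6, h2 j, sub_self]
    rfl
  have h7 : v = 0 := Matrix.eq_zero_of_mulVec_eq_zero hdet h5
  have h8 : ∀ a, (p a : ℝ) * form L i₀ q = form L i₀ p * (q a : ℝ) := fun a =>
    sub_eq_zero.1 (congrFun h7 a)
  obtain ⟨a, b, hab⟩ := h
  apply hab
  have hq0 : form L i₀ q ≠ 0 := form_ne hb (nonProp_right ⟨a, b, hab⟩) i₀
  have h9 : ((p a : ℝ) * (q b : ℝ)) * form L i₀ q = ((p b : ℝ) * (q a : ℝ)) * form L i₀ q := by
    have e1 := h8 a
    have e2 := h8 b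
    calc ((p a : ℝ) * (q b : ℝ)) * form L i₀ q = ((p a : ℝ) * form L i₀ q) * (q b : ℝ) := by ring
      _ = (form L i₀ p * (q a : ℝ)) * (q b : ℝ) := by rw [e1]
      _ = (form L i₀ p * (q b : ℝ)) * (q a : ℝ) := by ring
      _ = ((p b : ℝ) * form L i₀ q) * (q a : ℝ) := by rw [e2]
      _ = ((p b : ℝ) * (q a : ℝ)) * form L i₀ q := by ring
  have h10 := mul_right_cancel₀ hq0 h9
  exact_mod_cast h10

/-- separated points are not proportional -/
lemma nonProp_of_separated (hn : 3 ≤ n) {L : Fin n → Fin n → ℝ} (hb : BoundedAway L)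
    {p q : Fin n → ℤ} (hp : p ≠ 0) (h : Separated L p q) : NonProportional p q := by
  by_contra hcon
  unfold NonProportional at hcon
  push Not at hcon
  obtain ⟨a, ha⟩ : ∃ a, p a ≠ 0 := by
    by_contra h0
    push Not at h0
    exact hp (funext h0)
  have h1 : ∀ i, form L i q * (p a : ℝ) = form L i p * (q a : ℝ) := by
    intro i
    unfold form
    rw [Finset.sum_mul, Finset.sum_mul]
    refine Finset.sum_congr rfl fun b _ => ?_
    have h2 : ((p a : ℝ) * (q b : ℝ)) = (p b : ℝ) * (q a : ℝ) := by exact_mod_cast hcon a b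
    linear_combination (L i b) * h2
  have hpa : (p a : ℝ) ≠ 0 := by exact_mod_cast ha
  refine h ⟨0, by omega⟩ ⟨1, by omega⟩ (by simp) ?_
  have e0 := h1 ⟨0, by omega⟩
  have e1 := h1 ⟨1, by omega⟩
  refine mul_right_cancel₀ hpa ?_
  linear_combination (form L ⟨0, by omega⟩ p) * e1 - (form L ⟨1, by omega⟩ p) * e0

/-! ### Avoiding coincidences -/

/-- limits without coincidences at transverse pairs are dense -/
theorem avoid_pairs (hn : 3 ≤ n) {L : Fin n → Fin n → ℝ} (hL : LinearIndependent ℝ L)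
    (hb : BoundedAway L) (hA : ¬ HasMatrix L) (hrec : Recurrent L) {C : Set ℝ}
    (hC : C.Countable) :
    Limits L ⊆ closure {M | M ∈ Limits L ∧ ∀ p q : Fin n → ℤ, p ≠ 0 → q ≠ 0 →
      Transverse M p q → ∀ r ∈ C, F M p ≠ r * F M q} := by
  classical
  set T : Set ((Fin n → ℤ) × (Fin n → ℤ) × ℝ × Fin n × Finset (Fin n)) :=
    {t | t.2.2.1 ∈ C ∧ t.2.2.2.1 ∉ t.2.2.2.2 ∧ n < t.2.2.2.2.card + n.minFac} with hT
  have hTc : T.Countable := by
    have h1 : T ⊆ Set.univ ×ˢ (Set.univ ×ˢ (C ×ˢ Set.univ)) := by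
      rintro ⟨p, q, r, t⟩ ⟨h, -⟩
      exact ⟨Set.mem_univ _, Set.mem_univ _, h, Set.mem_univ _⟩
    refine (Set.Countable.prod Set.countable_univ (Set.Countable.prod Set.countable_univ
      (hC.prod Set.countable_univ))).mono h1
  -- a coincidence gives an element of the set
  have key : ∀ M : Fin n → Fin n → ℝ, ∀ p q : Fin n → ℤ, ∀ r ∈ C, Transverse M p q →
      ∃ (i : Fin n) (J : Finset (Fin n)), (p, q, r, i, J) ∈ T ∧
        ∀ j ∈ J, form M j p * form M i q ≠ form M i p * form M j q := by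
    intro M p q r hr ⟨i, hi⟩
    refine ⟨i, Finset.univ.filter fun j => ¬ (form M j p * form M i q = form M i p * form M j q),
      ⟨hr, ?_, ?_⟩, ?_⟩
    · simp
    · have h1 := Finset.card_filter_add_card_filter_not (s := (Finset.univ : Finset (Fin n)))
        (fun j => form M j p * form M i q = form M i p * form M j q)
      rw [Finset.card_univ, Fintype.card_fin] at h1
      show n < (Finset.univ.filter fun j =>
        ¬ (form M j p * form M i q = form M i p * form M j q)).card + n.minFac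
      have h2 : (Finset.univ.filter fun j : Fin n =>
        form M j p * form M i q = form M i p * form M j q).card < n.minFac := by
        convert hi using 2
      omega
    · intro j hj
      exact (Finset.mem_filter.1 hj).2
  rcases T.eq_empty_or_nonempty with hTe | hTne
  · intro M hM
    refine subset_closure ⟨hM, fun p q _ _ htr r hr _ => ?_⟩
    obtain ⟨i, J, h1, -⟩ := key M p q r hr htr
    rw [hTe] at h1
    exact h1
  obtain ⟨u, hu⟩ := hTc.exists_eq_range hTne
  have hu1 : ∀ k, u k ∈ T := fun k => hu ▸ Set.mem_range_self k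
  have h1 := (IndependentCoefficients.result n hn).1 L hL hb hA hrec
  set W : ℕ → Set (Fin n → Fin n → ℝ) := fun k => {M | (∀ a, form M a (u k).1 ≠ 0) ∧
    (∀ a, form M a (u k).2.1 ≠ 0) ∧ ∀ j ∈ (u k).2.2.2.2,
      form M j (u k).1 * form M (u k).2.2.2.1 (u k).2.1 -
        form M (u k).2.2.2.1 (u k).1 * form M j (u k).2.1 ≠ 0} with hW
  set X : ℕ → Fin 2 → Fin n → ℤ := fun k => ![(u k).1, (u k).2.1] with hX
  set P : ℕ → ((Fin 2 → ℝ) →L[ℝ] ℝ) := fun k =>
    (ContinuousLinearMap.proj (R := ℝ) (φ := fun _ : Fin 2 => ℝ) 0) -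
      (u k).2.2.1 • (ContinuousLinearMap.proj (R := ℝ) (φ := fun _ : Fin 2 => ℝ) 1) with hP
  set f : ℕ → (Fin n → Fin n → ℝ) → ℝ := fun k M => P k (R503.CSD.FV (X k) M) with hf
  have hfeq : ∀ k M, f k M = F M (u k).1 - (u k).2.2.1 * F M (u k).2.1 := fun k M => rfl
  have hWo : ∀ k, IsOpen (W k) := by
    intro k
    have h2 : W k = (⋂ a, {M | form M a (u k).1 ≠ 0}) ∩ ((⋂ a, {M | form M a (u k).2.1 ≠ 0}) ∩
        ⋂ j ∈ (u k).2.2.2.2, {M | form M j (u k).1 * form M (u k).2.2.2.1 (u k).2.1 -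
          form M (u k).2.2.2.1 (u k).1 * form M j (u k).2.1 ≠ 0}) := by
      ext M
      simp only [hW, Set.mem_setOf_eq, Set.mem_inter_iff, Set.mem_iInter]
    rw [h2]
    refine (isOpen_iInter_of_finite fun a => isOpen_ne_fun (cont_form a _) continuous_const).inter
      ((isOpen_iInter_of_finite fun a =>
        isOpen_ne_fun (cont_form a _) continuous_const).inter ?_)
    refine isOpen_biInter_finset fun j _ => isOpen_ne_fun ?_ continuous_const
    exact ((cont_form _ _).mul (cont_form _ _)).sub ((cont_form _ _).mul (cont_form _ _))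
  have hst : ∀ k M, HasStrictFDerivAt (f k) ((P k).comp (fderiv ℝ (R503.CSD.FV (X k)) M)) M :=
    fun k M => (P k).hasStrictFDerivAt.comp M (R503.CSD.an_FV (X k) M).hasStrictFDerivAt
  have hder : ∀ k, ∀ M ∈ W k, f k M = 0 → ∀ j ∈ (u k).2.2.2.2,
      ((P k).comp (fderiv ℝ (R503.CSD.FV (X k)) M))
        (IndependentCoefficients.place (u k).2.2.2.1 j M) ≠ 0 := by
    intro k M hM hf0 j hj
    obtain ⟨hM1, hM2, hM3⟩ := hM
    have hl : ∀ q : Fin 2, R503.CSD.lf (u k).2.2.2.1 (X k q) M ≠ 0 := by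
      intro q
      fin_cases q
      · exact hM1 _
      · exact hM2 _
    have h2 := R503.CSD.fv_dir (X k) (i := (u k).2.2.2.1) (j := j) M hl
    rw [ContinuousLinearMap.comp_apply, IndependentCoefficients.place_eq, h2]
    show F M (u k).1 * (form M j (u k).1 / form M (u k).2.2.2.1 (u k).1) - (u k).2.2.1 *
      (F M (u k).2.1 * (form M j (u k).2.1 / form M (u k).2.2.2.1 (u k).2.1)) ≠ 0
    rw [hfeq, sub_eq_zero] at hf0
    have h3 : F M (u k).1 * (form M j (u k).1 / form M (u k).2.2.2.1 (u k).1) - (u k).2.2.1 *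
        (F M (u k).2.1 * (form M j (u k).2.1 / form M (u k).2.2.2.1 (u k).2.1)) =
        F M (u k).1 * ((form M j (u k).1 * form M (u k).2.2.2.1 (u k).2.1 -
          form M (u k).2.2.2.1 (u k).1 * form M j (u k).2.1) /
          (form M (u k).2.2.2.1 (u k).1 * form M (u k).2.2.2.1 (u k).2.1)) := by
      have e1 := hM1 (u k).2.2.2.1
      have e2 := hM2 (u k).2.2.2.1
      have e3 : (u k).2.2.1 *
        (F M (u k).2.1 * (form M j (u k).2.1 / form M (u k).2.2.2.1 (u k).2.1)) =
        F M (u k).1 * (form M j (u k).2.1 / form M (u k).2.2.2.1 (u k).2.1) := by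
        rw [hf0]
        ring
      rw [e3]
      field_simp
    rw [h3]
    refine mul_ne_zero ?_ (div_ne_zero (hM3 j hj) (mul_ne_zero (hM1 _) (hM2 _)))
    exact Finset.prod_ne_zero_iff.2 fun i _ => hM1 i
  have h6 := h1 W f (fun k M => (P k).comp (fderiv ℝ (R503.CSD.FV (X k)) M))
    (fun k => (u k).2.2.2.1) (fun k => (u k).2.2.2.2)
    hWo (fun k => (hu1 k).2.1) (fun k => (hu1 k).2.2) (fun k M _ => hst k M)
    (fun k M hM h0 j hj => hder k M hM h0 j hj)
  intro M₀ hM₀
  refine closure_mono ?_ (h6 hM₀)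
  rintro M ⟨hM, hM2⟩
  refine ⟨hM, fun p q hp hq htr r hr heq => ?_⟩
  obtain ⟨-, hbM, -⟩ := limit_props hn hL hb hM
  obtain ⟨i, J, hmem, hJ⟩ := key M p q r hr htr
  rw [hu] at hmem
  obtain ⟨k, hk⟩ := hmem
  refine hM2 k ⟨fun a => ?_, fun a => ?_, fun j hj => ?_⟩ ?_
  · rw [hk]
    exact form_ne hbM hp a
  · rw [hk]
    exact form_ne hbM hq a
  · rw [hk] at hj ⊢
    exact sub_ne_zero.2 (hJ j hj)
  · rw [hfeq, hk]
    exact sub_eq_zero.2 heq

end Pool.Agent.T9h79.OP
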