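import Mathlib
import Pool.Agent.T9h79.OP.Coin

/-!
# Coinciding values of products of linear forms: automorphs and uniform versions
-/

set_option autoImplicit false

open Filter Topology
open Pool.Agent
open Pool.Agent.Results.MP_77d073_nt

namespace Pool.Agent.T9h79.OP

variable {n : ℕ}

/-- an automorph with different positive eigenvalues -/
theorem exists_automorph (hn : 3 ≤ n) {L : Fin n → Fin n → ℝ} (hL : LinearIndependent ℝ L)
    (hb : BoundedAway L) (hA : HasMatrix L) :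
    ∃ (δ : Matrix (Fin n) (Fin n) ℤ) (c : Fin n → ℝ), Function.Injective c ∧ |δ.det| = 1 ∧
      (∀ i, 0 < c i) ∧ ∏ i, c i = 1 ∧ ∀ i j, ∑ k, L i k * (δ k j : ℝ) = c i * L i j := by
  classical
  obtain ⟨ν, hν, hnu⟩ := id hb
  have hdet : (Matrix.of L).det ≠ 0 := Pool.Agent.H905R2.Opp.det_ne hL
  have hV : 0 < |(Matrix.of L).det| := abs_pos.2 hdet
  have hn0 : (0 : ℝ) < (n : ℝ) ^ n := by
    have : (0 : ℝ) < n := by exact_mod_cast (by omega : 0 < n)
    positivity
  set T : ℝ := (n.factorial : ℝ) * |(Matrix.of L).det| / (n : ℝ) ^ n + 1 with hT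
  have hT1 : (n.factorial : ℝ) * |(Matrix.of L).det| < (n : ℝ) ^ n * T := by
    rw [hT, mul_add, mul_div_cancel₀ _ hn0.ne']
    linarith
  obtain ⟨κ, hκ, C, hC, hfew⟩ := Pool.Agent.N759.FV.few_values_full (d := n) (by omega) hV hν
    (fun h hh => H715R2.mink_prod (by omega) _ T hV hT1 h hh)
  obtain ⟨c₀, hc₀, hval⟩ := values_sub hn hL hb hA
  set Z : Set ℝ := (fun z : ℤ => c₀ * (z : ℝ)) '' Set.Icc (-⌈T / c₀⌉) ⌈T / c₀⌉ with hZ
  have hZfin : Z.Finite := (Set.finite_Icc _ _).image _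
  have hsub : ∀ N, Pool.Agent.W777.FV.VN (Matrix.of L) T N ⊆ Z := by
    rintro N t ⟨p, -, -, hpt, ht⟩
    obtain ⟨z, hz⟩ := hval p
    have hpt' : F L p = t := hpt
    rw [hpt'] at hz
    have h1 : (z : ℝ) ≤ T / c₀ := by
      rw [le_div_iff₀ hc₀, mul_comm, ← hz]
      exact ht.le
    have h2 : (z : ℤ) ≤ ⌈T / c₀⌉ := by
      have : ((z : ℤ) : ℝ) ≤ (⌈T / c₀⌉ : ℤ) := by
        push_cast
        exact h1.trans (Int.le_ceil _)
      exact_mod_cast this
    rcases abs_choice t with h | h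
    · refine ⟨z, ⟨by omega, h2⟩, ?_⟩
      show c₀ * ((z : ℤ) : ℝ) = t
      rw [h] at hz
      rw [hz]
      push_cast
      rfl
    · refine ⟨-z, ⟨by omega, by omega⟩, ?_⟩
      show c₀ * ((-z : ℤ) : ℝ) = t
      rw [h] at hz
      push_cast
      linarith
  set G : ℝ := ∑ i, ∑ j, |(Matrix.of L)⁻¹ i j| with hG
  have hGb : ∀ i j, |(Matrix.of L)⁻¹ i j| ≤ G := fun i j =>
    (Finset.single_le_sum (f := fun j => |(Matrix.of L)⁻¹ i j|) (fun j _ => abs_nonneg _)
      (Finset.mem_univ j)).trans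
    (Finset.single_le_sum (f := fun i => ∑ j, |(Matrix.of L)⁻¹ i j|)
      (fun i _ => Finset.sum_nonneg fun j _ => abs_nonneg _) (Finset.mem_univ i))
  have hexp : n - n / n.minFac ≠ 0 := by
    have h1 : n / n.minFac < n := Nat.div_lt_self (by omega) (Nat.minFac_prime (by omega)).one_lt
    omega
  have htend : Tendsto (fun N : ℕ => κ * Real.log N ^ (n - n / n.minFac)) atTop atTop :=
    Tendsto.const_mul_atTop hκ ((tendsto_pow_atTop hexp).comp
      (Real.tendsto_log_atTop.comp tendsto_natCast_atTop_atTop))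
  obtain ⟨N, hN1, hN2⟩ := ((htend.eventually_gt_atTop ((Z.ncard : ℝ) ^ (n ^ 2 - n))).and
    (eventually_ge_atTop ⌈C * (1 + G) ^ 2⌉₊)).exists
  obtain ⟨δ, c, hinj, -, hrel, hdδ, hpos, -, -⟩ := hfew (Matrix.of L) rfl hnu G hGb N
    (Nat.ceil_le.1 hN2) (lt_of_le_of_lt (by
      refine pow_le_pow_left₀ (Nat.cast_nonneg _) ?_ _
      exact_mod_cast Set.ncard_le_ncard (hsub N) hZfin) hN1)
  refine ⟨δ, c, hinj, Int.isUnit_iff_abs_eq.1 hdδ, hpos, ?_, fun i j => ?_⟩
  · have h1 := congrArg Matrix.det hrel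
    rw [Matrix.det_mul, Matrix.det_mul, Matrix.det_diagonal, H715R2.det_zR] at h1
    have h2 : ((δ.det : ℤ) : ℝ) = ∏ i, c i := by
      refine mul_left_cancel₀ hdet ?_
      rw [h1, mul_comm]
    have h3 : 0 < ∏ i, c i := Finset.prod_pos fun i _ => hpos i
    rcases Int.isUnit_iff.1 hdδ with h | h
    · rw [← h2, h]
      norm_num
    · rw [← h2, h] at h3
      norm_num at h3
  · have h1 := congrFun (congrFun hrel i) j
    rw [Matrix.mul_apply, Matrix.diagonal_mul] at h1
    exact h1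

/-- points of a selection with the same value -/
lemma coincide_of (hn : 3 ≤ n) {S : (Fin n → Fin n → ℝ) → Set (Fin n → ℤ)} (hS : Selection S)
    {L : Fin n → Fin n → ℝ} (hL : LinearIndependent ℝ L) (hb : BoundedAway L) (hA : HasMatrix L)
    {p : Fin n → ℤ} (hp : p ∈ S L) :
    ∃ q ∈ S L, Separated L p q ∧ F L p = F L q := by
  obtain ⟨δ, c, hinj, hδ, hpos, hprod, hrel⟩ := exists_automorph hn hL hb hA
  have hp0 := hS.nonzero L hL hb p hp
  have hform : ∀ i, form L i (δ.mulVec p) = c i * form L i p := by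
    intro i
    have h1 := lf_orbit (L := L) (L' := fun i j => 1 * ∑ k, L i k * (δ k j : ℝ))
      (a := fun _ => 1) (γ := δ) (fun _ _ => rfl) p i
    simp only [one_mul] at h1
    show ∑ k, L i k * ((δ.mulVec p) k : ℝ) = _
    rw [← h1]
    unfold form
    rw [Finset.mul_sum]
    refine Finset.sum_congr rfl fun j _ => ?_
    rw [hrel]
    ring
  refine ⟨δ.mulVec p, hS.equivariant L L (fun i => (c i)⁻¹) δ hL hb
    (fun i => inv_pos.2 (hpos i)) (by rw [Finset.prod_inv_distrib, hprod, inv_one]) hδ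
    (fun i j => by rw [hrel, inv_mul_cancel_left₀ (hpos i).ne']) p hp, ?_, ?_⟩
  · intro i j hij heq
    rw [hform, hform] at heq
    have h1 := form_ne hb hp0 i
    have h2 := form_ne hb hp0 j
    have h3 : c j * (form L i p * form L j p) = c i * (form L i p * form L j p) := by
      linear_combination heq
    exact hij (hinj (mul_right_cancel₀ (mul_ne_zero h1 h2) h3)).symm
  · show F L p = ∏ i, form L i (δ.mulVec p)
    simp_rw [hform]
    rw [Finset.prod_mul_distrib, hprod, one_mul]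
    rfl

/-- pairs of small points with the same value for all elements of the orbit -/
lemma uniform_of (hn : 3 ≤ n) {L : Fin n → Fin n → ℝ} (hL : LinearIndependent ℝ L)
    (hb : BoundedAway L) (hA : HasMatrix L) :
    ∃ R : ℝ, ∀ a : Fin n → ℝ, (∀ i, 0 < a i) → ∏ i, a i = 1 →
      ∃ p q : Fin n → ℤ, p ≠ 0 ∧ Separated L p q ∧ F L p = F L q ∧
        ∀ i, a i * |form L i p| ≤ R ∧ a i * |form L i q| ≤ R := by
  classical
  obtain ⟨δ, c, hinj, hδ, hpos, hprod, hrel⟩ := exists_automorph hn hL hb hA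
  obtain ⟨ν, hν, hnu⟩ := id hb
  have hdet : (Matrix.of L).det ≠ 0 := Pool.Agent.H905R2.Opp.det_ne hL
  have hfac : 0 < (n.factorial : ℝ) * |(Matrix.of L).det| :=
    mul_pos (by positivity) (abs_pos.2 hdet)
  set r : ℝ := n.factorial * |(Matrix.of L).det| + 1 with hr
  have hr1 : 1 ≤ r := by linarith
  have hr0 : 0 < r := by linarith
  have hrn : (n.factorial : ℝ) * |(Matrix.of L).det| < r ^ n := by
    have h1 : r ^ 1 ≤ r ^ n := pow_le_pow_right₀ hr1 (by omega)
    rw [pow_one] at h1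
    linarith
  have hsum0 : 0 ≤ ∑ i, c i := Finset.sum_nonneg fun i _ => (hpos i).le
  refine ⟨r * (1 + ∑ i, c i), fun a ha0 ha1 => ?_⟩
  obtain ⟨m, hm, hm1, -, -⟩ := H715R2.exists_vec (by omega) hν hdet hnu hr0 hrn a ha0 ha1
  have hform : ∀ i, form L i (δ.mulVec m) = c i * form L i m := by
    intro i
    have h1 := lf_orbit (L := L) (L' := fun i j => 1 * ∑ k, L i k * (δ k j : ℝ))
      (a := fun _ => 1) (γ := δ) (fun _ _ => rfl) m i
    simp only [one_mul] at h1
    show ∑ k, L i k * ((δ.mulVec m) k : ℝ) = _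
    rw [← h1]
    unfold form
    rw [Finset.mul_sum]
    refine Finset.sum_congr rfl fun j _ => ?_
    rw [hrel]
    ring
  refine ⟨m, δ.mulVec m, hm, ?_, ?_, fun i => ?_⟩
  · intro i j hij heq
    rw [hform, hform] at heq
    have h1 := form_ne hb hm i
    have h2 := form_ne hb hm j
    have h3 : c j * (form L i m * form L j m) = c i * (form L i m * form L j m) := by
      linear_combination heq
    exact hij (hinj (mul_right_cancel₀ (mul_ne_zero h1 h2) h3)).symm
  · show F L m = ∏ i, form L i (δ.mulVec m)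
    simp_rw [hform]
    rw [Finset.prod_mul_distrib, hprod, one_mul]
    rfl
  · have h1 : a i * |form L i m| < r := hm1 i
    have h2 : c i ≤ ∑ i, c i := Finset.single_le_sum (f := c) (fun i _ => (hpos i).le)
      (Finset.mem_univ i)
    constructor
    · nlinarith
    · rw [hform, abs_mul, abs_of_pos (hpos i)]
      have h3 : a i * (c i * |form L i m|) = c i * (a i * |form L i m|) := by ring
      rw [h3]
      have h4 : 0 ≤ a i * |form L i m| := mul_nonneg (ha0 i).le (abs_nonneg _)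
      nlinarith

/-- pairs of small points with proportional values along a direction pass to the limits -/
lemma pair_of_YT (hn : 3 ≤ n) {L M : Fin n → Fin n → ℝ} {θ : Fin n → ℝ} {δ : ℝ}
    (hLM : LinearIndependent ℝ M) (hbM : BoundedAway M)
    (hM : Matrix.of M ∈ Pool.Agent.R750.CV.YT θ δ (Matrix.of L)) {C : Set ℝ} (hC : IsClosed C)
    {R : ℝ} {N : ℕ} (h : ∀ (a : Fin n → ℝ) (u : ℝ), (∀ i, 0 < a i) → ∏ i, a i = 1 →
      (N : ℝ) ≤ u → (∀ k, |Real.log (a k) + θ k * u| ≤ δ * u) →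
      ∃ p q : Fin n → ℤ, NonProportional p q ∧
        (∀ i, a i * |form L i p| ≤ R ∧ a i * |form L i q| ≤ R) ∧ ∃ r ∈ C, F L p = r * F L q) :
    ∃ p q : Fin n → ℤ, NonProportional p q ∧ ∃ r ∈ C, F M p = r * F M q := by
  classical
  by_contra hcon
  push Not at hcon
  obtain ⟨Q, hQ, hev⟩ := finite_near hLM R
  have hev2 : ∀ᶠ M' in 𝓝 M, ∀ p ∈ Q, ∀ q ∈ Q, NonProportional p q →
      F M' q ≠ 0 ∧ F M' p / F M' q ∉ C := by
    refine (Filter.eventually_all_finite hQ).2 fun p _ =>
      (Filter.eventually_all_finite hQ).2 fun q _ => ?_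
    by_cases hpq : NonProportional p q
    · have hq0 : F M q ≠ 0 := Finset.prod_ne_zero_iff.2 fun i _ =>
        form_ne hbM (nonProp_right hpq) i
      have h1 : ∀ᶠ M' in 𝓝 M, F M' q ≠ 0 := (continuous_F q).continuousAt.eventually_ne hq0
      have h2 : F M p / F M q ∈ Cᶜ := fun hmem =>
        hcon p q hpq _ hmem (by rw [div_mul_cancel₀ _ hq0])
      have h3 : ContinuousAt (fun M' => F M' p / F M' q) M :=
        (continuous_F p).continuousAt.div (continuous_F q).continuousAt hq0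
      have h4 : ∀ᶠ M' in 𝓝 M, F M' p / F M' q ∈ Cᶜ := h3.eventually (hC.isOpen_compl.mem_nhds h2)
      exact (h1.and h4).mono fun M' hM' _ => hM'
    · exact Filter.Eventually.of_forall fun M' h => absurd h hpq
  have hmem : M ∈ closure (Pool.Agent.R750.CV.OrbT θ δ (Matrix.of L) N :
    Set (Fin n → Fin n → ℝ)) := Set.mem_iInter.1 hM N
  obtain ⟨M', ⟨h1, h2⟩, a, γ, u, ha0, ha1, hs1, hs2, hγ, hh⟩ :=
    mem_closure_iff_nhds.1 hmem _ (hev.and hev2)
  have hM' : ∀ i j, M' i j = a i * ∑ k, L i k * (γ k j : ℝ) := by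
    intro i j
    rw [hh, Matrix.mul_assoc, Matrix.diagonal_mul, Matrix.mul_apply]
    rfl
  have hγ1 : |γ.det| = 1 := Int.isUnit_iff_abs_eq.1 hγ
  obtain ⟨p, q, hpq, hR, r, hr, heq⟩ := h a u ha0 ha1 hs1 fun k => (hs2 k).trans (by
    have : (0 : ℝ) ≤ N := Nat.cast_nonneg _
    linarith)
  obtain ⟨p', rfl⟩ := mulVec_surj hγ1 p
  obtain ⟨q', rfl⟩ := mulVec_surj hγ1 q
  have hpq' : NonProportional p' q' := by
    by_contra hc
    unfold NonProportional at hc
    push Not at hc
    obtain ⟨x, y, hxy⟩ := hpq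
    apply hxy
    simp only [Matrix.mulVec, dotProduct]
    rw [Finset.sum_mul_sum, Finset.sum_mul_sum]
    rw [Finset.sum_comm]
    refine Finset.sum_congr rfl fun i _ => Finset.sum_congr rfl fun j _ => ?_
    linear_combination (γ x j * γ y i) * hc j i
  have hf : ∀ (w : Fin n → ℤ) (i : Fin n), |form M' i w| = a i * |form L i (γ.mulVec w)| := by
    intro w i
    show |∑ j, M' i j * (w j : ℝ)| = _
    rw [lf_orbit hM' w i, abs_mul, abs_of_pos (ha0 i)]
    rfl
  have hp1 : p' ∈ Q := h1 p' fun i => by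
    have := hf p' i
    show |form M' i p'| ≤ R
    rw [this]
    exact (hR i).1
  have hq1 : q' ∈ Q := h1 q' fun i => by
    have := hf q' i
    show |form M' i q'| ≤ R
    rw [this]
    exact (hR i).2
  obtain ⟨h3, h4⟩ := h2 p' hp1 q' hq1 hpq'
  apply h4
  rw [F_orbit ha1 hM' p', F_orbit ha1 hM' q', heq]
  rw [F_orbit ha1 hM' q'] at h3
  rw [mul_div_assoc, div_self h3, mul_one]
  exact hr

end Pool.Agent.T9h79.OP
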