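import Mathlib
import Pool.Agent.T9h79.OP.Defs

/-!
# Selections of tuples of integer points: definitions
-/

set_option autoImplicit false

open Filter Topology

namespace Pool.Agent.T9h79.OP

variable {n : ℕ}

/-- The points are linearly independent. -/
def Independent {m : ℕ} (x : Fin m → Fin n → ℤ) : Prop :=
  LinearIndependent ℝ (fun (k : Fin m) (j : Fin n) => (x k j : ℝ))

/-- an equivariant and open choice of `m`-tuples of linearly independent integer points -/
structure TupleSelection (m : ℕ) (S : (Fin n → Fin n → ℝ) → Set (Fin m → Fin n → ℤ)) : Prop where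
  independent : ∀ L : Fin n → Fin n → ℝ, LinearIndependent ℝ L → BoundedAway L →
    ∀ x ∈ S L, Independent x
  equivariant : ∀ (L L' : Fin n → Fin n → ℝ) (a : Fin n → ℝ) (γ : Matrix (Fin n) (Fin n) ℤ),
    LinearIndependent ℝ L → BoundedAway L → (∀ i, 0 < a i) → ∏ i, a i = 1 → |γ.det| = 1 →
    (∀ i j, L' i j = a i * ∑ k, L i k * (γ k j : ℝ)) →
    ∀ x ∈ S L', (fun k => γ.mulVec (x k)) ∈ S L
  isOpen : ∀ L : Fin n → Fin n → ℝ, LinearIndependent ℝ L → BoundedAway L → ∀ x ∈ S L,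
    ∀ᶠ M in 𝓝 L, x ∈ S M

/-- the vectors of the values of the product at the tuples of `S L` -/
def tupleValues {m : ℕ} (S : (Fin n → Fin n → ℝ) → Set (Fin m → Fin n → ℤ))
    (L : Fin n → Fin n → ℝ) : Set (Fin m → ℝ) :=
  {y | ∃ x ∈ S L, ∀ k, y k = F L (x k)}

/-- The limits of the vectors of the values of the product at those tuples `x` of `S L` for which the
vectors of the `log |L i (x k)|` are at distance at most `δ u` from `u θ`, with `u → ∞`. -/
def TupleLimits {m : ℕ} (S : (Fin n → Fin n → ℝ) → Set (Fin m → Fin n → ℤ)) (θ : Fin n → ℝ)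
    (δ : ℝ) (L : Fin n → Fin n → ℝ) : Set (Fin m → ℝ) :=
  {y | ∀ (ε : ℝ) (N : ℕ), 0 < ε → ∃ x ∈ S L, ∃ u : ℝ, (N : ℝ) ≤ u ∧
    (∀ k i, |Real.log |∑ j, L i j * (x k j : ℝ)| - θ i * u| ≤ δ * u) ∧
    ∀ k, |F L (x k) - y k| < ε}

/-- the independent `m`-tuples of points of `S L` -/
def tuples (m : ℕ) (S : (Fin n → Fin n → ℝ) → Set (Fin n → ℤ)) (L : Fin n → Fin n → ℝ) :
    Set (Fin m → Fin n → ℤ) :=
  {x | (∀ k, x k ∈ S L) ∧ Independent x}

/-- The pairs of neighbouring relative minima: the pairs `x 0, x 1` of linearly independent integer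
points such that no nonzero integer point `z` satisfies `|L i z| < max (|L i (x 0)|, |L i (x 1)|)` for
all `i`. -/
def Neighbours (L : Fin n → Fin n → ℝ) : Set (Fin 2 → Fin n → ℤ) :=
  {x | Independent x ∧ ∀ z : Fin n → ℤ, z ≠ 0 → ∃ i, ∀ k,
    |∑ j, L i j * (x k j : ℝ)| ≤ |∑ j, L i j * (z j : ℝ)|}

end Pool.Agent.T9h79.OP
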