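import Mathlib
import Pool.Agent.T9h79.OP.Engine
import Pool.Agent.T9h79.OP.TupDefs

/-!
# Relations between the values at selected tuples of points
-/

set_option autoImplicit false

open Filter Topology
open Pool.Agent
open Pool.Agent.Results.MP_77d073_nt

namespace Pool.Agent.T9h79.OP

variable {n m : ℕ}

open H715R2 Pool.Agent.Y327 Pool.Agent.R503.CSD in
/-- relations of class `C^r` which hold near a point of the minimal set (the proof of
`R503.CSD.flat_values`, localised) -/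
theorem flat_local {d : ℕ} (hd : 3 ≤ d) (hp : d.Prime) {g : Matrix (Fin d) (Fin d) ℝ}
    (hg : g.det ≠ 0) {ν : ℝ} (hν : 0 < ν) (hnu : HasNu g ν) (hint : ¬ PropInt g)
    {M : Set (Matrix (Fin d) (Fin d) ℝ)} (hMg : M ⊆ closure (Orb g)) (hM : MinB id M)
    (hm : m < d) {x : Fin m → Fin d → ℤ} (hx : LinearIndependent ℝ (fun k => iR (x k)))
    {U : Set (Fin d → Fin d → ℝ)} (hU : IsOpen U)
    {V : Set (Fin m → ℝ)} (hV : IsOpen V) {φ : (Fin m → ℝ) → ℝ} {r : WithTop ℕ∞}
    (hφ : ContDiffOn ℝ r φ V)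
    (hz : ∀ h : Fin d → Fin d → ℝ, Matrix.of h ∈ M → h ∈ U → FV x h ∈ V → φ (FV x h) = 0)
    (q : ℕ) (hq : (q : WithTop ℕ∞) ≤ r) :
    ∀ h : Fin d → Fin d → ℝ, Matrix.of h ∈ M → h ∈ U → FV x h ∈ V →
      iteratedFDeriv ℝ q φ (FV x h) = 0 := by
  have hMnu : ∀ h ∈ M, HasNu h ν := fun h hh => hasNu_closure hnu (hMg hh)
  induction q with
  | zero =>
    intro h hh hhU hhV
    rw [← norm_eq_zero, norm_iteratedFDeriv_zero, norm_eq_zero]
    exact hz h hh hhU hhV
  | succ q ih =>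
    intro h hh hhU hhV
    have ih' := ih (le_trans (by exact_mod_cast Nat.le_succ q) hq)
    have h1 : ContDiffAt ℝ r φ (FV x h) := hφ.contDiffAt (hV.mem_nhds hhV)
    have h2 : ContDiffAt ℝ 1 (iteratedFDeriv ℝ q φ) (FV x h) := by
      refine h1.iteratedFDeriv_right ?_
      refine le_trans (le_of_eq ?_) hq
      push_cast
      rw [add_comm]
    have h3 := h2.hasStrictFDerivAt one_ne_zero
    have hF : HasStrictFDerivAt (FV x) (fderiv ℝ (FV x) h) h :=
      ((an_FV x h).contDiffAt (n := 1)).hasStrictFDerivAt one_ne_zero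
    have h4 := h3.comp h hF
    have hev : ∀ᶠ h' : Fin d → Fin d → ℝ in 𝓝 h, Matrix.of h' ∈ M →
        ((iteratedFDeriv ℝ q φ) ∘ FV x) h' = 0 := by
      have h5 := (an_FV x h).continuousAt.preimage_mem_nhds (hV.mem_nhds hhV)
      filter_upwards [h5, hU.mem_nhds hhU] with h' hh' hhU' hhM'
      exact ih' h' hhM' hhU' hh'
    have hlk : ∀ i k, R503.CSD.lf i (x k) h ≠ 0 := fun i k =>
      R503.CSD.lf_ne hν hMnu hh i (ne_zero_of_indep hx k)
    have hdt : dt h ≠ 0 := by
      have := abs_det_closure (hMg hh)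
      rw [dt, ← abs_ne_zero, this, abs_ne_zero]
      exact hg
    set w : {a : Fin d × Fin d // a.1 ≠ a.2} → Fin m → ℝ := fun a k =>
      FV x h k * (R503.CSD.lf a.1.2 (x k) h / R503.CSD.lf a.1.1 (x k) h) with hw
    have hspan := zero_of_ann (w := w) (fun c hc => ann_indep hm hx hdt hlk c
      (fun i j hij => hc ⟨(i, j), hij⟩))
    have h6 : fderiv ℝ (iteratedFDeriv ℝ q φ) (FV x h) = 0 := by
      refine ContinuousLinearMap.ext fun y => ?_
      have hy : y ∈ Submodule.span ℝ (Set.range w) := by rw [hspan]; trivial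
      induction hy using Submodule.span_induction with
      | mem y hy =>
        obtain ⟨⟨⟨i, j⟩, hij⟩, rfl⟩ := hy
        obtain ⟨h₁, hh₁⟩ := hM.ne
        have hs := sam_of_prime hd hp hg hν hnu hint hMg hM hh₁ i j
        have h7 := strict_sam hd hg hν hnu hMg hM hh₁ hij hs hh h4 hev
        rw [ContinuousLinearMap.comp_apply, fv_dir x h (hlk i)] at h7
        exact h7
      | zero => rw [map_zero, map_zero]
      | add y z _ _ hy hz => rw [map_add, hy, hz, map_add]
      | smul a y _ hy => rw [map_smul, hy, map_smul]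
    have h7 : ‖fderiv ℝ (iteratedFDeriv ℝ q φ) (FV x h)‖ = 0 := by
      rw [h6]
      exact ContinuousLinearMap.opNorm_zero
    rw [norm_fderiv_iteratedFDeriv] at h7
    exact norm_eq_zero.1 h7

/-- the vector of the values -/
noncomputable def FF' (x : Fin m → Fin n → ℤ) (L : Fin n → Fin n → ℝ) : Fin m → ℝ :=
  fun k => F L (x k)

lemma continuous_FF' (x : Fin m → Fin n → ℤ) : Continuous (FF' x) :=
  continuous_pi fun k => continuous_F (x k)

/-- a recurrent counterexample: relations between the values are flat -/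
theorem flat_recurrent (hn : 3 ≤ n) (hp : n.Prime) (hm : m < n)
    {S : (Fin n → Fin n → ℝ) → Set (Fin m → Fin n → ℤ)} (hS : TupleSelection m S)
    {L : Fin n → Fin n → ℝ} (hL : LinearIndependent ℝ L) (hb : BoundedAway L)
    (hA : ¬ HasMatrix L) (hrec : Recurrent L) {V : Set (Fin m → ℝ)} (hV : IsOpen V)
    {φ : (Fin m → ℝ) → ℝ} {r : WithTop ℕ∞} (hφ : ContDiffOn ℝ r φ V)
    (hz : ∀ M ∈ Limits L, ∀ x ∈ S M, FF' x M ∈ V → φ (FF' x M) = 0)
    {x : Fin m → Fin n → ℤ} (hx : x ∈ S L) (hxV : FF' x L ∈ V) (q : ℕ)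
    (hq : (q : WithTop ℕ∞) ≤ r) : iteratedFDeriv ℝ q φ (FF' x L) = 0 := by
  have hint := IndependentCoefficients.not_propInt hn hL hb hA
  obtain ⟨ν, hν, hF⟩ := id hb
  have hM := IndependentCoefficients.minB_of_recurrent
    ((IndependentCoefficients.recurrent_iff L).1 hrec)
  obtain ⟨U, hU, hUo, hLU⟩ := eventually_nhds_iff.1 (hS.isOpen L hL hb x hx)
  refine flat_local hn hp (Pool.Agent.H905R2.Opp.det_ne hL) hν hF hint subset_rfl hM hm
    (x := x) (hS.independent L hL hb x hx) hUo hV hφ (fun h hh hhU hhV => ?_) q hq L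
    ((IndependentCoefficients.limits_eq L L).1 (self_mem L)) hLU hxV
  exact hz h ((IndependentCoefficients.limits_eq L h).2 hh) x (hU h hhU) hhV

/-- the vectors of values of a limit are limits of such vectors -/
lemma tuple_limit (hn : 3 ≤ n) {S : (Fin n → Fin n → ℝ) → Set (Fin m → Fin n → ℤ)}
    (hS : TupleSelection m S) {L M : Fin n → Fin n → ℝ} (hL : LinearIndependent ℝ L)
    (hb : BoundedAway L) (hM : M ∈ Limits L) {x : Fin m → Fin n → ℤ} (hx : x ∈ S M) :
    FF' x M ∈ closure (tupleValues S L) := by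
  obtain ⟨h1, h2, -⟩ := limit_props hn hL hb hM
  refine mem_closure_iff.2 fun U hU hMU => ?_
  have h3 : ∀ᶠ N in 𝓝 M, x ∈ S N ∧ FF' x N ∈ U :=
    (hS.isOpen M h1 h2 x hx).and ((continuous_FF' x).continuousAt.eventually (hU.mem_nhds hMU))
  obtain ⟨V, hV, hVo, hMV⟩ := eventually_nhds_iff.1 h3
  obtain ⟨N, hNV, a, γ, ha0, ha1, hγ, h⟩ := mem_closure_iff.1 hM V hVo hMV
  obtain ⟨h4, h5⟩ := hV N hNV
  refine ⟨FF' x N, h5, _, hS.equivariant L N a γ hL hb ha0 ha1 hγ h x h4, fun k => ?_⟩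
  exact F_orbit ha1 h (x k)

lemma indep_ne {x : Fin m → Fin n → ℤ} (hx : Independent x) (k : Fin m) : x k ≠ 0 :=
  R503.CSD.ne_zero_of_indep hx k

/-- the same along a direction -/
lemma tuple_along {S : (Fin n → Fin n → ℝ) → Set (Fin m → Fin n → ℤ)}
    (hS : TupleSelection m S) {θ : Fin n → ℝ} {δ : ℝ} {L M : Fin n → Fin n → ℝ}
    (hL : LinearIndependent ℝ L) (hb : BoundedAway L) (hLM : LinearIndependent ℝ M)
    (hbM : BoundedAway M)
    (hM : Matrix.of M ∈ Pool.Agent.R750.CV.YT θ δ (Matrix.of L)) {x : Fin m → Fin n → ℤ}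
    (hx : x ∈ S M) : FF' x M ∈ TupleLimits S θ δ L := by
  classical
  intro ε N hε
  have hx0 : ∀ k, x k ≠ 0 := fun k => indep_ne (hS.independent M hLM hbM x hx) k
  have hpos : ∀ k i, 0 < |∑ j, M i j * (x k j : ℝ)| := fun k i =>
    abs_pos.2 (lf_ne hbM (hx0 k) i)
  obtain ⟨C, hC⟩ := exists_nat_ge (∑ k, ∑ i, (|Real.log (|∑ j, M i j * (x k j : ℝ)|)| + 1))
  have hCk : ∀ k i, |Real.log (|∑ j, M i j * (x k j : ℝ)|)| + 1 ≤ C := fun k i =>
    ((Finset.single_le_sum (f := fun i => |Real.log (|∑ j, M i j * (x k j : ℝ)|)| + 1)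
      (fun i _ => by positivity) (Finset.mem_univ i)).trans
    (Finset.single_le_sum (f := fun k => ∑ i, (|Real.log (|∑ j, M i j * (x k j : ℝ)|)| + 1))
      (fun k _ => Finset.sum_nonneg fun i _ => by positivity) (Finset.mem_univ k))).trans hC
  have hopen : ∀ᶠ M' in 𝓝 M, x ∈ S M' ∧ (∀ k i, |Real.log (|∑ j, M' i j * (x k j : ℝ)|)| < C ∧
      ∑ j, M' i j * (x k j : ℝ) ≠ 0) ∧ ∀ k, |F M' (x k) - F M (x k)| < ε := by
    refine (hS.isOpen M hLM hbM x hx).and ((Filter.eventually_all.2 fun k =>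
      Filter.eventually_all.2 fun i => ?_).and (Filter.eventually_all.2 fun k => ?_))
    · have hc : Tendsto (fun M' : Fin n → Fin n → ℝ => |∑ j, M' i j * (x k j : ℝ)|) (𝓝 M)
          (𝓝 |∑ j, M i j * (x k j : ℝ)|) := ((cont_lf i (x k)).tendsto M).abs
      have hl := ((Real.continuousAt_log (hpos k i).ne').tendsto.comp hc).abs
      refine (hl.eventually (gt_mem_nhds ?_)).and ?_
      · have := hCk k i
        linarith
      · filter_upwards [hc.eventually (lt_mem_nhds (hpos k i))] with h' hh'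
        exact abs_pos.1 hh'
    · have h1 : Tendsto (fun M' : Fin n → Fin n → ℝ => |F M' (x k) - F M (x k)|) (𝓝 M)
          (𝓝 0) := by
        have := (((continuous_F (x k)).tendsto M).sub_const (F M (x k))).abs
        rwa [sub_self, abs_zero] at this
      exact h1.eventually (gt_mem_nhds hε)
  have hmem : M ∈ closure (Pool.Agent.R750.CV.OrbT θ δ (Matrix.of L) (N + C) :
    Set (Fin n → Fin n → ℝ)) := Set.mem_iInter.1 hM (N + C)
  obtain ⟨M', ⟨h0, h1, h2⟩, a, γ, u, ha0, ha1, hs1, hs2, hγ, hh⟩ :=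
    mem_closure_iff_nhds.1 hmem _ hopen
  have hM' : ∀ i j, M' i j = a i * ∑ k, L i k * (γ k j : ℝ) := by
    intro i j
    rw [hh, Matrix.mul_assoc, Matrix.diagonal_mul, Matrix.mul_apply]
    rfl
  have hγ1 : |γ.det| = 1 := Int.isUnit_iff_abs_eq.1 hγ
  refine ⟨_, hS.equivariant L M' a γ hL hb ha0 ha1 hγ1 hM' x h0, u, ?_, fun k i => ?_,
    fun k => ?_⟩
  · push_cast at hs1
    have : (0 : ℝ) ≤ C := Nat.cast_nonneg _
    linarith
  · obtain ⟨h3, h4⟩ := h1 k i
    rw [lf_orbit hM' (x k) i] at h3 h4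
    have h5 : ∑ j, L i j * ((γ.mulVec (x k)) j : ℝ) ≠ 0 := fun h0 => h4 (by rw [h0, mul_zero])
    rw [abs_mul, abs_of_pos (ha0 i), Real.log_mul (ha0 i).ne' (abs_pos.2 h5).ne'] at h3
    have h6 := hs2 i
    push_cast at h6
    have h7 : (0 : ℝ) ≤ N := Nat.cast_nonneg _
    calc |Real.log (|∑ j, L i j * ((γ.mulVec (x k)) j : ℝ)|) - θ i * u|
        = |(Real.log (a i) + Real.log (|∑ j, L i j * ((γ.mulVec (x k)) j : ℝ)|)) -
            (Real.log (a i) + θ i * u)| := by
          congr 1; ring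
      _ ≤ |Real.log (a i) + Real.log (|∑ j, L i j * ((γ.mulVec (x k)) j : ℝ)|)| +
            |Real.log (a i) + θ i * u| := abs_sub _ _
      _ ≤ δ * u := by linarith
  · show |F L (γ.mulVec (x k)) - F M (x k)| < ε
    rw [← F_orbit ha1 hM' (x k)]
    exact h2 k

lemma isClosed_tupleLimits (S : (Fin n → Fin n → ℝ) → Set (Fin m → Fin n → ℤ)) (θ : Fin n → ℝ)
    (δ : ℝ) (L : Fin n → Fin n → ℝ) : TupleLimits S θ δ L ⊆ closure (tupleValues S L) := by
  intro y hy
  refine Metric.mem_closure_iff.2 fun ε hε => ?_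
  obtain ⟨x, hx, u, -, -, h⟩ := hy ε 0 hε
  refine ⟨FF' x L, ⟨x, hx, fun _ => rfl⟩, ?_⟩
  rw [dist_comm, dist_pi_lt_iff hε]
  intro k
  rw [Real.dist_eq]
  exact h k

/-- the relation satisfied by the values of an integral form -/
theorem relation_of (hn : 3 ≤ n) (hm : 0 < m)
    {S : (Fin n → Fin n → ℝ) → Set (Fin m → Fin n → ℤ)}
    {L : Fin n → Fin n → ℝ} (hL : LinearIndependent ℝ L) (hb : BoundedAway L)
    (hA : HasMatrix L) : ∃ φ : (Fin m → ℝ) → ℝ, AnalyticOnNhd ℝ φ Set.univ ∧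
      (∀ y ∈ closure (tupleValues S L), φ y = 0 ∧ iteratedFDeriv ℝ 1 φ y ≠ 0) ∧ φ ≠ 0 := by
  obtain ⟨c, hc, hz⟩ := H715R2.values_of_propInt (IndependentCoefficients.propInt hn hL hb hA)
  set k₀ : Fin m := ⟨0, hm⟩ with hk₀
  have han : AnalyticOnNhd ℝ (fun y : Fin m → ℝ => Real.sin (c⁻¹ * y k₀ * Real.pi))
      Set.univ := by
    intro y _
    have h1 : AnalyticAt ℝ (fun y : Fin m → ℝ => c⁻¹ * y k₀ * Real.pi) y :=
      (analyticAt_const.mul ((ContinuousLinearMap.proj (R := ℝ) (φ := fun _ : Fin m => ℝ)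
        k₀).analyticAt y)).mul analyticAt_const
    exact (Real.analyticAt_sin).comp h1
  refine ⟨fun y => Real.sin (c⁻¹ * y k₀ * Real.pi), han, ?_, ?_⟩
  · intro y hy
    have hcl : IsClosed {y : Fin m → ℝ | ∃ z : ℤ, y k₀ = c * z} := by
      have h1 : IsClosed (Set.range fun z : ℤ => c * (z : ℝ)) :=
        ((Homeomorph.mulLeft₀ c hc).isClosedEmbedding.comp
          Int.isClosedEmbedding_coe_real).isClosed_range
      have h2 : {y : Fin m → ℝ | ∃ z : ℤ, y k₀ = c * z} =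
          (fun y : Fin m → ℝ => y k₀) ⁻¹' (Set.range fun z : ℤ => c * (z : ℝ)) := by
        ext y
        constructor
        · rintro ⟨z, hz⟩
          exact ⟨z, hz.symm⟩
        · rintro ⟨z, hz⟩
          exact ⟨z, hz.symm⟩
      rw [h2]
      exact h1.preimage (continuous_apply k₀)
    obtain ⟨z, hyz⟩ : ∃ z : ℤ, y k₀ = c * z := by
      refine closure_minimal ?_ hcl hy
      rintro y ⟨x, -, hx⟩
      obtain ⟨z, hz1⟩ := hz (x k₀)
      exact ⟨z, (hx k₀).trans hz1⟩
    have harg : c⁻¹ * y k₀ * Real.pi = z * Real.pi := by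
      rw [hyz, inv_mul_cancel_left₀ hc]
    refine ⟨?_, fun h0 => ?_⟩
    · show Real.sin (c⁻¹ * y k₀ * Real.pi) = 0
      rw [harg]
      exact Real.sin_int_mul_pi z
    · have h1 : fderiv ℝ (fun y : Fin m → ℝ => Real.sin (c⁻¹ * y k₀ * Real.pi)) y = 0 := by
        rw [← norm_eq_zero, ← norm_iteratedFDeriv_one, h0, norm_zero]
      have h2 : HasFDerivAt (fun y : Fin m → ℝ => c⁻¹ * y k₀ * Real.pi)
          ((c⁻¹ * Real.pi) • (ContinuousLinearMap.proj (R := ℝ) (φ := fun _ : Fin m => ℝ) k₀))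
          y := by
        have h3 := ((ContinuousLinearMap.proj (R := ℝ) (φ := fun _ : Fin m => ℝ)
          k₀).hasFDerivAt (x := y)).const_mul (c⁻¹ * Real.pi)
        refine h3.congr_of_eventuallyEq (Filter.Eventually.of_forall fun y' => ?_)
        show c⁻¹ * y' k₀ * Real.pi = c⁻¹ * Real.pi * y' k₀
        ring
      have h4 := (h2.sin).fderiv
      rw [h1] at h4
      have h5 := congrArg (fun A : (Fin m → ℝ) →L[ℝ] ℝ => A (Pi.single k₀ 1)) h4
      simp only [ContinuousLinearMap.zero_apply, ContinuousLinearMap.smul_apply,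
        ContinuousLinearMap.proj_apply, Pi.single_eq_same, smul_eq_mul, mul_one] at h5
      rw [harg] at h5
      have h6 : Real.cos (z * Real.pi) ≠ 0 := by
        intro h7
        have h8 := Real.cos_sq_add_sin_sq (z * Real.pi)
        rw [h7, Real.sin_int_mul_pi] at h8
        norm_num at h8
      have h7 : c⁻¹ * Real.pi ≠ 0 := mul_ne_zero (inv_ne_zero hc) Real.pi_ne_zero
      exact mul_ne_zero h6 h7 h5.symm
  · intro h0
    have h1 := congrFun h0 (fun _ => c / 2)
    simp only [Pi.zero_apply] at h1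
    rw [show c⁻¹ * (c / 2) * Real.pi = Real.pi / 2 by field_simp, Real.sin_pi_div_two] at h1
    exact one_ne_zero h1

/-- an analytic function with all derivatives zero at a point is zero -/
lemma analytic_zero_of_flat {φ : (Fin m → ℝ) → ℝ} (hφ : AnalyticOnNhd ℝ φ Set.univ)
    {y : Fin m → ℝ} (h : ∀ q : ℕ, iteratedFDeriv ℝ q φ y = 0) : φ = 0 := by
  obtain ⟨p, r, hp⟩ := hφ y (Set.mem_univ y)
  have h1 : ∀ᶠ w in 𝓝 y, φ w = 0 := by
    have h2 : ∀ᶠ w in 𝓝 y, w ∈ Metric.eball y r := Metric.eball_mem_nhds y hp.r_pos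
    filter_upwards [h2] with w hw
    have hw' : w - y ∈ Metric.eball (0 : Fin m → ℝ) r := by
      rw [Metric.mem_eball] at hw ⊢
      rw [edist_eq_enorm_sub] at hw ⊢
      simpa using hw
    have h3 := hp.hasSum_iteratedFDeriv hw'
    have h4 : (fun q : ℕ => ((q.factorial : ℝ))⁻¹ • iteratedFDeriv ℝ q φ y fun _ => w - y) =
        fun _ => 0 := by
      funext q
      rw [h q]
      simp
    rw [h4] at h3
    have h5 := h3.unique hasSum_zero
    rwa [add_sub_cancel] at h5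
  funext w
  exact hφ.eqOn_zero_of_preconnected_of_eventuallyEq_zero isPreconnected_univ
    (Set.mem_univ y) h1 (Set.mem_univ w)

end Pool.Agent.T9h79.OP
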