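import Mathlib
import Pool.Agent.T9h79.OP.Tup
import Pool.Agent.T9h79.OP.Coin

/-!
# Neighbouring relative minima
-/

set_option autoImplicit false

open Filter Topology
open Pool.Agent
open Pool.Agent.Results.MP_77d073_nt

namespace Pool.Agent.T9h79.OP

variable {n m : ℕ}

lemma independent_mulVec {γ : Matrix (Fin n) (Fin n) ℤ} (hγ : |γ.det| = 1)
    {x : Fin m → Fin n → ℤ} (hx : Independent x) : Independent (fun k => γ.mulVec (x k)) := by
  have hdet : (H715R2.zR γ).det ≠ 0 := by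
    rw [H715R2.det_zR]
    intro h0
    have h1 : γ.det = 0 := by exact_mod_cast h0
    rw [h1] at hγ
    simp at hγ
  have hinj : Function.Injective (Matrix.mulVecLin (H715R2.zR γ)) := by
    intro v w hvw
    have h1 : (H715R2.zR γ).mulVec (v - w) = 0 := by
      rw [Matrix.mulVec_sub]
      exact sub_eq_zero.2 hvw
    exact sub_eq_zero.1 (Matrix.eq_zero_of_mulVec_eq_zero hdet h1)
  have h1 := LinearIndependent.map' hx (Matrix.mulVecLin (H715R2.zR γ))
    (LinearMap.ker_eq_bot.2 hinj)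
  have h2 : (⇑(Matrix.mulVecLin (H715R2.zR γ)) ∘ fun (k : Fin m) (j : Fin n) => (x k j : ℝ)) =
      fun (k : Fin m) (j : Fin n) => ((γ.mulVec (x k)) j : ℝ) := by
    funext k j
    show (H715R2.zR γ).mulVec (H715R2.iR (x k)) j = _
    rw [H715R2.zR_mulVec_iR]
    rfl
  rw [h2] at h1
  exact h1

theorem sel_tuples {S : (Fin n → Fin n → ℝ) → Set (Fin n → ℤ)} (hS : Selection S) :
    TupleSelection m (tuples m S) where
  independent := fun L _ _ x hx => hx.2
  equivariant := by
    intro L L' a γ hL hb ha ha1 hγ h x hx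
    exact ⟨fun k => hS.equivariant L L' a γ hL hb ha ha1 hγ h (x k) (hx.1 k),
      independent_mulVec hγ hx.2⟩
  isOpen := by
    intro L hL hb x hx
    have h1 : ∀ᶠ M in 𝓝 L, ∀ k, x k ∈ S M :=
      Filter.eventually_all.2 fun k => hS.isOpen L hL hb (x k) (hx.1 k)
    exact h1.mono fun M hM => ⟨hM, hx.2⟩

/-- linear independence of two integer points -/
lemma independent_iff {x : Fin 2 → Fin n → ℤ} : Independent x ↔
    ∀ a b : ℝ, (∀ j, a * (x 0 j : ℝ) + b * (x 1 j : ℝ) = 0) → a = 0 ∧ b = 0 := by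
  unfold Independent
  rw [Fintype.linearIndependent_iff]
  constructor
  · intro h a b hab
    have h1 := h ![a, b] (by
      funext j
      simp only [Finset.sum_apply, Fin.sum_univ_two, Pi.smul_apply, smul_eq_mul]
      exact hab j)
    exact ⟨h1 0, h1 1⟩
  · intro h g hg i
    have h1 := h (g 0) (g 1) (fun j => by
      have h2 := congrFun hg j
      simp only [Finset.sum_apply, Fin.sum_univ_two, Pi.smul_apply, smul_eq_mul] at h2
      exact h2)
    fin_cases i
    · exact h1.1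
    · exact h1.2

lemma ne_of_independent {x : Fin 2 → Fin n → ℤ} (hx : Independent x) :
    x 0 - x 1 ≠ 0 ∧ x 0 + x 1 ≠ 0 := by
  rw [independent_iff] at hx
  constructor
  · intro h0
    have h1 := hx 1 (-1) (fun j => by
      have h2 := congrFun h0 j
      have h3 : (x 0 j : ℝ) - (x 1 j : ℝ) = 0 := by exact_mod_cast h2
      linarith)
    exact one_ne_zero h1.1
  · intro h0
    have h1 := hx 1 1 (fun j => by
      have h2 := congrFun h0 j
      have h3 : (x 0 j : ℝ) + (x 1 j : ℝ) = 0 := by exact_mod_cast h2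
      linarith)
    exact one_ne_zero h1.1

lemma lf_sub (L : Fin n → Fin n → ℝ) (i : Fin n) (p q : Fin n → ℤ) :
    ∑ j, L i j * (((p - q) j : ℤ) : ℝ) = ∑ j, L i j * (p j : ℝ) - ∑ j, L i j * (q j : ℝ) := by
  rw [← Finset.sum_sub_distrib]
  refine Finset.sum_congr rfl fun j _ => ?_
  rw [Pi.sub_apply]
  push_cast
  ring

lemma lf_add (L : Fin n → Fin n → ℝ) (i : Fin n) (p q : Fin n → ℤ) :
    ∑ j, L i j * (((p + q) j : ℤ) : ℝ) = ∑ j, L i j * (p j : ℝ) + ∑ j, L i j * (q j : ℝ) := by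
  rw [← Finset.sum_add_distrib]
  refine Finset.sum_congr rfl fun j _ => ?_
  rw [Pi.add_apply]
  push_cast
  ring

/-- the absolute values of the forms are different at points which are different up to the sign -/
lemma abs_ne {L : Fin n → Fin n → ℝ} (hb : BoundedAway L) {p q : Fin n → ℤ} (h1 : p - q ≠ 0)
    (h2 : p + q ≠ 0) (i : Fin n) : |∑ j, L i j * (p j : ℝ)| ≠ |∑ j, L i j * (q j : ℝ)| := by
  intro heq
  rcases abs_eq_abs.1 heq with h | h
  · exact lf_ne hb h1 i (by rw [lf_sub, h, sub_self])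
  · exact lf_ne hb h2 i (by rw [lf_add, h]; ring)

theorem sel_neighbours :
    TupleSelection 2 (Neighbours : (Fin n → Fin n → ℝ) → _) where
  independent := fun L _ _ x hx => hx.1
  equivariant := by
    intro L L' a γ hL hb ha ha1 hγ h x hx
    obtain ⟨hx1, hx2⟩ := hx
    refine ⟨independent_mulVec hγ hx1, fun z hz => ?_⟩
    obtain ⟨z', rfl⟩ := mulVec_surj hγ z
    obtain ⟨i, hi⟩ := hx2 z' (fun h0 => hz (by rw [h0, Matrix.mulVec_zero]))
    refine ⟨i, fun k => ?_⟩
    have h1 := hi k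
    rw [lf_orbit h (x k), lf_orbit h z', abs_mul, abs_mul, abs_of_pos (ha i)] at h1
    exact le_of_mul_le_mul_left h1 (ha i)
  isOpen := by
    intro L hL hb x hx
    obtain ⟨hx1, hx2⟩ := hx
    obtain ⟨hne1, hne2⟩ := ne_of_independent hx1
    have hx0 : ∀ k, x k ≠ 0 := fun k => indep_ne hx1 k
    set R : ℝ := ∑ k, ∑ i, |∑ j, L i j * (x k j : ℝ)| + 1 with hR
    obtain ⟨Q, hQ, hev⟩ := finite_near hL R
    have hev1 : ∀ᶠ M in 𝓝 L, ∀ k i, |∑ j, M i j * (x k j : ℝ)| < R := by
      refine Filter.eventually_all.2 fun k => Filter.eventually_all.2 fun i => ?_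
      refine (cont_lf i (x k)).abs.continuousAt.eventually (gt_mem_nhds ?_)
      have h1 := Finset.single_le_sum (f := fun i => |∑ j, L i j * (x k j : ℝ)|)
        (fun i _ => abs_nonneg _) (Finset.mem_univ i)
      have h2 := Finset.single_le_sum (f := fun k => ∑ i, |∑ j, L i j * (x k j : ℝ)|)
        (fun k _ => Finset.sum_nonneg fun i _ => abs_nonneg _) (Finset.mem_univ k)
      linarith
    -- the two points themselves and their negatives
    have hself : ∀ k₀ : Fin 2, ∀ᶠ M in 𝓝 L, ∃ i, ∀ k,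
        |∑ j, M i j * (x k j : ℝ)| ≤ |∑ j, M i j * (x k₀ j : ℝ)| := by
      intro k₀
      obtain ⟨i, hi⟩ := hx2 (x k₀) (hx0 k₀)
      have h1 : ∀ k, k ≠ k₀ → |∑ j, L i j * (x k j : ℝ)| < |∑ j, L i j * (x k₀ j : ℝ)| := by
        intro k hk
        refine lt_of_le_of_ne (hi k) ?_
        fin_cases k <;> fin_cases k₀
        · exact absurd rfl hk
        · exact abs_ne hb hne1 hne2 i
        · exact (abs_ne hb hne1 hne2 i).symm
        · exact absurd rfl hk
      have h2 : ∀ᶠ M in 𝓝 L, ∀ k, k ≠ k₀ →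
          |∑ j, M i j * (x k j : ℝ)| < |∑ j, M i j * (x k₀ j : ℝ)| := by
        refine Filter.eventually_all.2 fun k => ?_
        by_cases hk : k = k₀
        · exact Filter.Eventually.of_forall fun M h => absurd hk h
        · exact (ContinuousAt.eventually_lt (cont_lf i (x k)).abs.continuousAt
            (cont_lf i (x k₀)).abs.continuousAt (h1 k hk)).mono fun M hM _ => hM
      refine h2.mono fun M hM => ⟨i, fun k => ?_⟩
      by_cases hk : k = k₀
      · rw [hk]
      · exact (hM k hk).le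
    have hev2 : ∀ᶠ M in 𝓝 L, ∀ z ∈ Q, z ≠ 0 → ∃ i, ∀ k,
        |∑ j, M i j * (x k j : ℝ)| ≤ |∑ j, M i j * (z j : ℝ)| := by
      refine (Filter.eventually_all_finite hQ).2 fun z _ => ?_
      by_cases hz0 : z = 0
      · exact Filter.Eventually.of_forall fun M h => absurd hz0 h
      by_cases hsame : ∃ k₀, x k₀ - z = 0 ∨ x k₀ + z = 0
      · obtain ⟨k₀, hk⟩ := hsame
        refine (hself k₀).mono fun M hM _ => ?_
        obtain ⟨i, hi⟩ := hM
        refine ⟨i, fun k => (hi k).trans (le_of_eq ?_)⟩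
        rcases hk with hk | hk
        · rw [sub_eq_zero.1 hk]
        · have h3 : ∑ j, M i j * (((x k₀ + z) j : ℤ) : ℝ) = 0 := by
            rw [hk]
            simp
          rw [lf_add] at h3
          rw [eq_neg_of_add_eq_zero_left h3, abs_neg]
      · push Not at hsame
        obtain ⟨i, hi⟩ := hx2 z hz0
        have h2 : ∀ᶠ M in 𝓝 L, ∀ k,
            |∑ j, M i j * (x k j : ℝ)| < |∑ j, M i j * (z j : ℝ)| := by
          refine Filter.eventually_all.2 fun k => ?_
          exact ContinuousAt.eventually_lt (cont_lf i (x k)).abs.continuousAt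
            (cont_lf i z).abs.continuousAt
            (lt_of_le_of_ne (hi k) (abs_ne hb (hsame k).1 (hsame k).2 i))
        exact h2.mono fun M hM _ => ⟨i, fun k => (hM k).le⟩
    filter_upwards [hev, hev1, hev2] with M h2 h3 h4
    refine ⟨hx1, fun z hz => ?_⟩
    by_cases hzQ : z ∈ Q
    · exact h4 z hzQ hz
    · have h5 : ∃ i, R < |∑ j, M i j * (z j : ℝ)| := by
        by_contra hcon
        push Not at hcon
        exact hzQ (h2 z hcon)
      obtain ⟨i, hi⟩ := h5
      exact ⟨i, fun k => ((h3 k i).trans hi).le⟩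

/-- there are neighbouring relative minima -/
theorem neighbours_nonempty (hn : 3 ≤ n) {L : Fin n → Fin n → ℝ} (hL : LinearIndependent ℝ L)
    (hb : BoundedAway L) : (Neighbours L).Nonempty := by
  classical
  obtain ⟨p, hp0, hp⟩ := relMin_nonempty hn hL
  obtain ⟨ν, hν, hnu⟩ := id hb
  have hdet : (Matrix.of L).det ≠ 0 := Pool.Agent.H905R2.Opp.det_ne hL
  have hlf : ∀ i, 0 < |∑ j, L i j * (p j : ℝ)| := fun i => abs_pos.2 (lf_ne hb hp0 i)
  set i₀ : Fin n := ⟨0, by omega⟩ with hi₀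
  set i₁ : Fin n := ⟨1, by omega⟩ with hi₁
  have h10 : i₁ ≠ i₀ := by
    intro h
    have := congrArg Fin.val h
    simp [hi₀, hi₁] at this
  -- points in the slab
  set T : Set (Fin n → ℤ) := {z | z ≠ 0 ∧ ∀ i, i ≠ i₀ →
    |∑ j, L i j * (z j : ℝ)| < |∑ j, L i j * (p j : ℝ)|} with hT
  have hTne : T.Nonempty := by
    have hfac : 0 < (n.factorial : ℝ) * |(Matrix.of L).det| :=
      mul_pos (by positivity) (abs_pos.2 hdet)
    set r : ℝ := n.factorial * |(Matrix.of L).det| + 1 with hr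
    have hr1 : 1 ≤ r := by linarith
    have hr0 : 0 < r := by linarith
    have hrn : (n.factorial : ℝ) * |(Matrix.of L).det| < r ^ n := by
      have h1 : r ^ 1 ≤ r ^ n := pow_le_pow_right₀ hr1 (by omega)
      rw [pow_one] at h1
      linarith
    set b : Fin n → ℝ := fun i => r / |∑ j, L i j * (p j : ℝ)| with hbdef
    have hb0 : ∀ i, 0 < b i := fun i => div_pos hr0 (hlf i)
    set a : Fin n → ℝ := fun i => if i = i₀ then (∏ k ∈ Finset.univ.erase i₀, b k)⁻¹ else b i
      with ha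
    have hP : 0 < ∏ k ∈ Finset.univ.erase i₀, b k := Finset.prod_pos fun k _ => hb0 k
    have ha0 : ∀ i, 0 < a i := by
      intro i
      simp only [ha]
      split_ifs
      · exact inv_pos.2 hP
      · exact hb0 i
    have ha1 : ∏ i, a i = 1 := by
      rw [← Finset.mul_prod_erase Finset.univ _ (Finset.mem_univ i₀)]
      have h1 : ∏ k ∈ Finset.univ.erase i₀, a k = ∏ k ∈ Finset.univ.erase i₀, b k :=
        Finset.prod_congr rfl fun k hk => by
          simp only [ha, if_neg (Finset.ne_of_mem_erase hk)]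
      rw [h1]
      simp only [ha, if_true]
      exact inv_mul_cancel₀ hP.ne'
    obtain ⟨z, hz, hz1, -, -⟩ := H715R2.exists_vec (by omega) hν hdet hnu hr0 hrn a ha0 ha1
    refine ⟨z, hz, fun i hi => ?_⟩
    have h1 : a i * |∑ j, L i j * (z j : ℝ)| < r := hz1 i
    simp only [ha, if_neg hi, hbdef] at h1
    have h2 : r / |∑ j, L i j * (p j : ℝ)| * |∑ j, L i j * (z j : ℝ)| =
        r * (|∑ j, L i j * (z j : ℝ)| / |∑ j, L i j * (p j : ℝ)|) := by ring
    rw [h2] at h1
    have h3 : |∑ j, L i j * (z j : ℝ)| / |∑ j, L i j * (p j : ℝ)| < 1 := by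
      by_contra hcon
      push Not at hcon
      have := mul_le_mul_of_nonneg_left hcon hr0.le
      linarith
    rwa [div_lt_one (hlf i)] at h3
  -- the first point of the slab
  obtain ⟨q, hqT, hqmin⟩ : ∃ q ∈ T, ∀ z ∈ T,
      |∑ j, L i₀ j * (q j : ℝ)| ≤ |∑ j, L i₀ j * (z j : ℝ)| := by
    obtain ⟨q₀, hq₀⟩ := hTne
    obtain ⟨Q, hQ, hev⟩ := finite_near hL
      (|∑ j, L i₀ j * (q₀ j : ℝ)| + ∑ i, |∑ j, L i j * (p j : ℝ)|)
    have h1 := hev.self_of_nhds
    have hfin : {z | z ∈ T ∧ |∑ j, L i₀ j * (z j : ℝ)| ≤ |∑ j, L i₀ j * (q₀ j : ℝ)|}.Finite := by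
      refine hQ.subset ?_
      rintro z ⟨hz, hz2⟩
      refine h1 z fun i => ?_
      have h2 := Finset.single_le_sum (f := fun i => |∑ j, L i j * (p j : ℝ)|)
        (fun i _ => abs_nonneg _) (Finset.mem_univ i)
      have h3 : 0 ≤ ∑ i, |∑ j, L i j * (p j : ℝ)| := Finset.sum_nonneg fun i _ => abs_nonneg _
      by_cases hi : i = i₀
      · rw [hi]
        linarith
      · have h4 := hz.2 i hi
        have h5 := abs_nonneg (∑ j, L i₀ j * (q₀ j : ℝ))
        linarith
    obtain ⟨q, ⟨hq1, hq2⟩, hq3⟩ := Set.exists_min_image _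
      (fun z : Fin n → ℤ => |∑ j, L i₀ j * (z j : ℝ)|) hfin ⟨q₀, hq₀, le_rfl⟩
    refine ⟨q, hq1, fun z hz => ?_⟩
    by_cases h : |∑ j, L i₀ j * (z j : ℝ)| ≤ |∑ j, L i₀ j * (q₀ j : ℝ)|
    · exact hq3 z ⟨hz, h⟩
    · exact hq2.trans (not_le.1 h).le
  obtain ⟨hq0, hq⟩ := hqT
  -- the point `q` is outside of the box of `p`
  have hpq : |∑ j, L i₀ j * (p j : ℝ)| ≤ |∑ j, L i₀ j * (q j : ℝ)| := by
    obtain ⟨i, hi⟩ := hp q hq0
    by_cases h : i = i₀
    · rwa [h] at hi
    · exact absurd (hq i h) (not_lt.2 hi)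
  refine ⟨![p, q], ?_, ?_⟩
  · rw [independent_iff]
    intro a b hab
    have hab' : ∀ j, a * (p j : ℝ) + b * (q j : ℝ) = 0 := hab
    have hL' : ∀ i, a * ∑ j, L i j * (p j : ℝ) + b * ∑ j, L i j * (q j : ℝ) = 0 := by
      intro i
      rw [Finset.mul_sum, Finset.mul_sum, ← Finset.sum_add_distrib]
      refine Finset.sum_eq_zero fun j _ => ?_
      linear_combination (L i j) * hab' j
    have h0 := hL' i₀
    have h1 := hL' i₁
    have e0 : |a| * |∑ j, L i₀ j * (p j : ℝ)| = |b| * |∑ j, L i₀ j * (q j : ℝ)| := by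
      rw [← abs_mul, ← abs_mul, ← abs_neg (b * _)]
      congr 1
      linarith
    have e1 : |a| * |∑ j, L i₁ j * (p j : ℝ)| = |b| * |∑ j, L i₁ j * (q j : ℝ)| := by
      rw [← abs_mul, ← abs_mul, ← abs_neg (b * _)]
      congr 1
      linarith
    have hq1 := hq i₁ h10
    -- |b| ≤ |a| from the first, |a| < |b| or both zero from the second
    have hba : |b| ≤ |a| := by
      by_contra hcon
      push Not at hcon
      have h2 : |a| * |∑ j, L i₀ j * (p j : ℝ)| < |b| * |∑ j, L i₀ j * (q j : ℝ)| :=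
        lt_of_lt_of_le (mul_lt_mul_of_pos_right hcon (hlf i₀))
          (mul_le_mul_of_nonneg_left hpq (abs_nonneg _))
      linarith
    have ha0 : |a| = 0 := by
      by_contra hcon
      have hapos : 0 < |a| := lt_of_le_of_ne (abs_nonneg _) (Ne.symm hcon)
      have h2 : |b| * |∑ j, L i₁ j * (q j : ℝ)| < |a| * |∑ j, L i₁ j * (p j : ℝ)| :=
        lt_of_le_of_lt (mul_le_mul_of_nonneg_right hba (abs_nonneg _))
          (mul_lt_mul_of_pos_left hq1 hapos)
      linarith
    have hb0 : |b| = 0 := le_antisymm (hba.trans ha0.le) (abs_nonneg _)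
    exact ⟨abs_eq_zero.1 ha0, abs_eq_zero.1 hb0⟩
  · intro z hz
    by_cases hzT : z ∈ T
    · refine ⟨i₀, fun k => ?_⟩
      have h1 := hqmin z hzT
      fin_cases k
      · exact hpq.trans h1
      · exact h1
    · have h1 : ∃ i, i ≠ i₀ ∧ |∑ j, L i j * (p j : ℝ)| ≤ |∑ j, L i j * (z j : ℝ)| := by
        by_contra hcon
        push Not at hcon
        exact hzT ⟨hz, hcon⟩
      obtain ⟨i, hi, hi2⟩ := h1
      refine ⟨i, fun k => ?_⟩
      fin_cases k
      · exact hi2
      · exact (hq i hi).le.trans hi2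

end Pool.Agent.T9h79.OP
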